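import Pool.Agent.DIM.FinO
import Pool.Agent.NC.NCM
import Pool.Agent.NTA.FinXAll

/-!
# DIM/FinAllX: the statement of LimitDimension, no hypothesis (helper83)
-/

set_option autoImplicit false

open MeasureTheory Filter Topology HexObs HexObs.NTW HexObs.EN

namespace HexObs

namespace DIM

open Pool.Agent.NTS.Res

open Pool.Agent.DIM.Res (Content)

open scoped ENNReal

theorem lawLowN_M : ∀ e : ℝ, 0 < e → e ≤ 4 / 3 → LawLowN (4 / 3 - e) :=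
  lawLowN_of (VF.mLow VF.sharpZ) (let ⟨C, _, h⟩ := VF.mUp VF.sharpZ; ⟨C, h⟩) factsX_M NTSF.finE (NC.nca_M espw_M)

/-- **the natural content of the self-avoiding walk and the dimension of its weak limits** -/
theorem dim_final :
    (∀ e ε : ℝ, 0 < e → 0 < ε → ∃ c : ℝ, 0 < c ∧ ∀ n : ℕ, 1 ≤ n →
      law n {γ : C(unitInterval, ℂ) | ¬ Content γ e c (1 / size n)} ≤ ENNReal.ofReal ε) ∧
    (∀ φ : ℕ → ℕ, StrictMono φ → ∃ ψ : ℕ → ℕ, StrictMono ψ ∧ ∃ ν : Measure C(unitInterval, ℂ),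
      IsProbabilityMeasure ν ∧ LawTo (fun k => φ (ψ k)) ν) ∧
    ∀ (φ : ℕ → ℕ) (ν : Measure C(unitInterval, ℂ)), Tendsto φ atTop atTop → IsProbabilityMeasure ν → LawTo φ ν →
      ∀ᵐ γ : C(unitInterval, ℂ) ∂ν, (∀ e : ℝ, 0 < e → ∃ c : ℝ, 0 < c ∧ ∀ ρ : ℝ, 0 < ρ → Content γ e c ρ) ∧
        ∀ u v : unitInterval, u < v → dimH (γ '' Set.Icc u v) = 4 / 3 :=
  dim_result NTSF.finE lawLowN_M

end DIM

end HexObs
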