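import Pool.Agent.DIM.Nat

/-!
DIM: under the natural content inequality every arc has the Hausdorff dimension D.
-/

set_option autoImplicit false

namespace HexObs

namespace DIM

open MeasureTheory Set Metric

open scoped ENNReal NNReal

variable {E : Type*} [MetricSpace E]


omit [MetricSpace E] in
lemma img_sub {f : ℝ → E} {u0 v0 : ℝ} (h : u0 < v0) (a b : ℝ) :
    (fun t : ℝ => f (u0 + t * (v0 - u0))) '' Icc a b = f '' Icc (u0 + a * (v0 - u0)) (u0 + b * (v0 - u0)) := by
  have hd : 0 < v0 - u0 := by linarith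
  ext z
  constructor
  · rintro ⟨t, ht, rfl⟩
    exact ⟨_, ⟨by nlinarith [ht.1], by nlinarith [ht.2]⟩, rfl⟩
  · rintro ⟨x, hx, rfl⟩
    refine ⟨(x - u0) / (v0 - u0), ⟨?_, ?_⟩, ?_⟩
    · rw [le_div_iff₀ hd]
      linarith [hx.1]
    · rw [div_le_iff₀ hd]
      linarith [hx.2]
    · show f (u0 + (x - u0) / (v0 - u0) * (v0 - u0)) = f x
      rw [div_mul_cancel₀ _ hd.ne']
      congr 1
      ring

lemma NatC_sub {f : ℝ → E} {D u0 v0 : ℝ} (hf : NatC f D) (h0 : 0 ≤ u0) (h : u0 < v0) (h1 : v0 ≤ 1) :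
    NatC (fun t : ℝ => f (u0 + t * (v0 - u0))) D := by
  intro e he
  obtain ⟨c, hc, hL, hU⟩ := hf e he
  have hd : 0 < v0 - u0 := by linarith
  have hd1 : v0 - u0 ≤ 1 := by linarith
  have hin : ∀ x : ℝ, 0 ≤ x → 0 ≤ u0 + x * (v0 - u0) := fun x hx => by positivity
  have hin1 : ∀ x : ℝ, x ≤ 1 → u0 + x * (v0 - u0) ≤ 1 := fun x hx => by nlinarith
  refine ⟨c * (v0 - u0), by positivity, ?_, ?_⟩
  · intro u v h0 huv hv r hr hr1 F hF
    rw [img_sub h] at hF
    have h2 := hL _ _ (hin u h0) (by nlinarith) (hin1 v hv) r hr hr1 F hF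
    refine le_trans (le_of_eq ?_) h2
    ring
  · intro u v h0 huv hv r hr hr1
    obtain ⟨F, hF, hFc⟩ := hU _ _ (hin u h0) (by nlinarith) (hin1 v hv) r hr hr1
    refine ⟨F, by rw [img_sub h]; exact hF, hFc.trans ?_⟩
    have e1 : u0 + v * (v0 - u0) - (u0 + u * (v0 - u0)) = (v0 - u0) * (v - u) := by ring
    rw [e1]
    have h3 : (v0 - u0) * (v - u) * r ^ (-(D + e)) / c ≤ (v - u) * r ^ (-(D + e)) / (c * (v0 - u0)) := by
      rw [div_le_div_iff₀ hc (by positivity)]
      have h4 : (v0 - u0) * (v0 - u0) ≤ 1 := by nlinarith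
      have h5 : 0 ≤ (v - u) * r ^ (-(D + e)) * c := by
        have : 0 ≤ v - u := by linarith
        positivity
      nlinarith
    linarith

/-- **every arc has the dimension D** -/
theorem dim_arc {f : ℝ → E} (hf : ContinuousOn f (Icc 0 1)) {D : ℝ} (hD : 0 < D) (h : NatC f D) {u v : ℝ} (h0 : 0 ≤ u)
    (huv : u < v) (hv : v ≤ 1) : dimH (f '' Icc u v) = ENNReal.ofReal D := by
  have hd : 0 < v - u := by linarith
  obtain ⟨g, hg⟩ : ∃ g : ℝ → E, g = fun t : ℝ => f (u + t * (v - u)) := ⟨_, rfl⟩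
  have hgN : NatC g D := by rw [hg]; exact NatC_sub h h0 huv hv
  have hgc : ContinuousOn g (Icc 0 1) := by
    rw [hg]
    refine hf.comp (by fun_prop) ?_
    intro t ht
    exact ⟨by have := ht.1; positivity, by nlinarith [ht.2]⟩
  have himg : f '' Icc u v = g '' Icc 0 1 := by
    rw [hg, img_sub huv]
    congr 2
    · ring
    · ring
  rw [himg]
  have hhol : ∀ e : ℝ, 0 < e → ∃ M : ℝ, 0 < M ∧ ∀ u v : ℝ, 0 ≤ u → u ≤ v → v ≤ 1 →
      dist (g u) (g v) ≤ M * (v - u) ^ (1 / (D + e)) := by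
    intro e he
    obtain ⟨c, hc, -, hU⟩ := hgN e he
    exact holder_of hgc (by linarith) hc hU
  apply le_antisymm
  · -- the upper bound
    have key : ∀ e : ℝ, 0 < e → dimH (g '' Icc 0 1) ≤ ENNReal.ofReal (D + e) := by
      intro e he
      obtain ⟨M, hM, hmod⟩ := hhol e he
      have hDe : 0 < D + e := by linarith
      have hH : HolderOnWith M.toNNReal (1 / (D + e)).toNNReal g (Icc 0 1) := by
        intro x hx y hy
        have hsym : dist (g x) (g y) ≤ M * dist x y ^ (1 / (D + e)) := by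
          rcases le_total x y with hxy | hxy
          · have := hmod x y hx.1 hxy hy.2
            rwa [dist_comm x y, Real.dist_eq, abs_of_nonneg (by linarith : 0 ≤ y - x)]
          · have := hmod y x hy.1 hxy hx.2
            rwa [dist_comm (g x), Real.dist_eq, abs_of_nonneg (by linarith : 0 ≤ x - y)]
        rw [edist_dist, edist_dist, Real.coe_toNNReal _ (by positivity),
          ENNReal.ofReal_rpow_of_nonneg dist_nonneg (by positivity)]
        change ENNReal.ofReal (dist (g x) (g y)) ≤ ENNReal.ofReal M * _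
        rw [← ENNReal.ofReal_mul hM.le]
        exact ENNReal.ofReal_le_ofReal hsym
      have hpos : 0 < (1 / (D + e)).toNNReal := Real.toNNReal_pos.2 (by positivity)
      refine (hH.dimH_image_le hpos).trans ?_
      have h1 : dimH (Icc (0 : ℝ) 1) ≤ 1 := by
        rw [← Real.dimH_univ]
        exact dimH_mono (subset_univ _)
      refine (ENNReal.div_le_div_right h1 _).trans (le_of_eq ?_)
      have h2 : (((1 / (D + e)).toNNReal : ℝ≥0) : ℝ≥0∞) = ENNReal.ofReal (1 / (D + e)) := rfl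
      rw [h2, one_div, one_div, ENNReal.ofReal_inv_of_pos hDe, inv_inv]
    refine ENNReal.le_of_forall_pos_le_add fun ε hε _ => ?_
    refine (key ε (by exact_mod_cast hε)).trans ?_
    rw [ENNReal.ofReal_add hD.le (by positivity), ENNReal.ofReal_coe_nnreal]
  · -- the lower bound
    refine le_of_forall_lt fun x hx => ?_
    obtain ⟨s, hs1, hs2⟩ := ENNReal.lt_iff_exists_nnreal_btwn.1 hx
    refine hs1.trans_le (dim_low hgc hD hhol (fun e he => ?_) ?_)
    · obtain ⟨c, hc, hL, -⟩ := hgN e he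
      exact ⟨c, hc, hL⟩
    · rw [ENNReal.ofReal, ENNReal.coe_lt_coe] at hs2
      exact (Real.lt_toNNReal_iff_coe_lt).1 hs2

end DIM

end HexObs
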