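import Pool.Agent.DIM.LawDefs
import Pool.Agent.NC.CellI
import Pool.Agent.NTS.ResultX

/-!
# DIM/CellBall: from the cells visited by the pieces of the words to the covers of the arcs of X_n (helper83)

* `crv_node` : the curve at the time `i / n`;
* `LowR.rot` : rotations;
* `nI_le_cover` : a cover by balls is at least the number of the cells over a constant;
* `lowR_of` : the deterministic statement;
* **`lawLow_of`** : the lower covering bound of the laws of `X_n` from the weights of the words of a scale.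
-/

set_option autoImplicit false

namespace HexObs

namespace DIM

open MeasureTheory Set Metric Filter Topology

open HexObs.TS HexObs.SDN HexObs.NTW

open Pool.Agent.NTS.Res

open NTSF (curve_eq law_le prop_le rot pos_rot om om_norm)

open NTF (JJ)

open NC (nI cI)

open scoped ENNReal Classical

lemma crv_node {n : ℕ} (hn : 1 ≤ n) (s : Fin n → Fin 3) {i : ℕ} (hi : i ≤ n) :
    crv (curve s) ((i : ℝ) / n) = Pool.Agent.NTS.Res.pos s i / size n := by
  have hn0 : (0 : ℝ) < n := by exact_mod_cast hn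
  have h0 : (0 : ℝ) ≤ (i : ℝ) / n := by positivity
  have h1 : (i : ℝ) / n ≤ 1 := by
    rw [div_le_one hn0]
    exact_mod_cast hi
  rw [crv_of h0 h1, curve_eq]
  rcases hi.lt_or_eq with h | h
  · have e : ((⟨(i : ℝ) / n, h0, h1⟩ : unitInterval) : ℝ) * n = i := div_mul_cancel₀ _ hn0.ne'
    rw [Tight.poly_apply h (le_of_eq e.symm) (by rw [e]; linarith), e, sub_self]
    simp
  · have e : (⟨(i : ℝ) / n, h0, h1⟩ : unitInterval) = 1 := by
      apply Subtype.ext
      show (i : ℝ) / n = 1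
      rw [h, div_self hn0.ne']
    rw [e, Tight.poly_one, h]

lemma LowR.mul {f : ℝ → ℂ} {a c r0 : ℝ} (h : LowR f a c r0) {w : ℂ} (hw : ‖w‖ = 1) : LowR (fun t => w * f t) a c r0 := by
  intro u v hu huv hv r hr0 hr1 F hF
  have hw0 : w ≠ 0 := by
    intro h0
    rw [h0, norm_zero] at hw
    exact zero_ne_one hw
  have h1 := h u v hu huv hv r hr0 hr1 (F.image fun z => w⁻¹ * z) ?_
  · refine h1.trans ?_
    exact_mod_cast Finset.card_image_le
  · rintro _ ⟨t, ht, rfl⟩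
    obtain ⟨z, hz, hz1⟩ := mem_iUnion₂.1 (hF ⟨t, ht, rfl⟩)
    refine mem_iUnion₂.2 ⟨w⁻¹ * z, Finset.mem_image.2 ⟨z, hz, rfl⟩, ?_⟩
    rw [mem_closedBall, dist_eq_norm] at hz1 ⊢
    have e : f t - w⁻¹ * z = w⁻¹ * (w * f t - z) := by
      field_simp
    rw [e, norm_mul, norm_inv, hw, inv_one, one_mul]
    exact hz1

lemma lowR_rot {n : ℕ} (s : Fin n → Fin 3) {a c r0 : ℝ} :
    LowR (crv (curve (rot s))) a c r0 ↔ LowR (crv (curve s)) a c r0 := by
  have e : crv (curve (rot s)) = fun t => om * crv (curve s) t := by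
    funext t
    show curve (rot s) (projIcc 0 1 zero_le_one t) = om * curve s (projIcc 0 1 zero_le_one t)
    show ∑ k ∈ Finset.range n, _ = om * ∑ k ∈ Finset.range n, _
    rw [Finset.mul_sum]
    refine Finset.sum_congr rfl fun k _ => ?_
    rw [pos_rot, pos_rot]
    ring
  have e2 : crv (curve s) = fun t => om⁻¹ * crv (curve (rot s)) t := by
    funext t
    rw [e]
    have : om ≠ 0 := NTSF.om_ne
    field_simp
  constructor
  · intro h
    rw [e2]
    exact h.mul (by rw [norm_inv, om_norm, inv_one])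
  · intro h
    rw [e]
    exact h.mul om_norm

/-- two vertices at a small distance are in neighbouring cells -/
lemma cell_close {b q : ℕ} {v w : Pt} (h : ∀ dir : Bool, |lvl dir v - lvl dir w| ≤ 3 * (q * 2 ^ b)) :
    (cell b v).1 ∈ Finset.Icc ((cell b w).1 - q) ((cell b w).1 + q) ∧
      (cell b v).2 ∈ Finset.Icc ((cell b w).2 - q) ((cell b w).2 + q) := by
  have hp : (0 : ℤ) < 2 ^ b := by positivity
  have key : ∀ dir : Bool, row dir v / 2 ^ b ≤ row dir w / 2 ^ b + q ∧ row dir w / 2 ^ b ≤ row dir v / 2 ^ b + q := by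
    intro dir
    have h1 := abs_le.1 (h dir)
    have aux : ∀ x y : ℤ, x ≤ y + 3 * (q * 2 ^ b) → x / 3 / 2 ^ b ≤ y / 3 / 2 ^ b + q := by
      intro x y hxy
      have e1 : x / 3 ≤ y / 3 + q * 2 ^ b := by omega
      calc x / 3 / 2 ^ b ≤ (y / 3 + q * 2 ^ b) / 2 ^ b := Int.ediv_le_ediv hp e1
        _ = y / 3 / 2 ^ b + q := Int.add_mul_ediv_right _ _ hp.ne'
    exact ⟨aux _ _ (by linarith [h1.2]), aux _ _ (by linarith [h1.1])⟩
  have h0 := key false
  have h1 := key true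
  unfold cell
  rw [Finset.mem_Icc, Finset.mem_Icc]
  constructor <;> constructor <;> simp only <;> linarith [h0.1, h0.2, h1.1, h1.2]

/-- a cover by balls is at least the number of the cells over a constant -/
lemma nI_le_cover {n b q : ℕ} {t : List Bool} {x y : ℕ} (hy : y ≤ n) {ρ : ℝ} (hq : 4 * ρ ≤ 3 * (q * 2 ^ b)) {F : Finset ℂ}
    (h : ∀ i, x ≤ i → i ≤ y → ∃ z ∈ F, ‖Pool.Agent.NTS.Res.pos (NTF.sw n t) i - z‖ ≤ ρ) :
    nI b t x y ≤ F.card * (2 * q + 1) ^ 2 := by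
  obtain ⟨G, hG⟩ : ∃ G : ℂ → Finset (ℤ × ℤ), G = fun z => ((Finset.Icc x y).filter fun i =>
      ‖Pool.Agent.NTS.Res.pos (NTF.sw n t) i - z‖ ≤ ρ).image fun i => cell b (vx oo up t i) := ⟨_, rfl⟩
  have h1 : cI b t x y ⊆ F.biUnion G := by
    intro c hc
    unfold cI at hc
    obtain ⟨i, hi, rfl⟩ := Finset.mem_image.1 hc
    rw [Finset.mem_Icc] at hi
    obtain ⟨z, hz, hz1⟩ := h i hi.1 hi.2
    refine Finset.mem_biUnion.2 ⟨z, hz, ?_⟩
    rw [hG]
    exact Finset.mem_image.2 ⟨i, Finset.mem_filter.2 ⟨Finset.mem_Icc.2 hi, hz1⟩, rfl⟩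
  have h2 : ∀ z ∈ F, (G z).card ≤ (2 * q + 1) ^ 2 := by
    intro z _
    by_cases hne : (G z).Nonempty
    · obtain ⟨c, hc⟩ := hne
      rw [hG] at hc
      obtain ⟨j, hj, hjc⟩ := Finset.mem_image.1 hc
      rw [Finset.mem_filter, Finset.mem_Icc] at hj
      have hsub : G z ⊆ Finset.Icc ((cell b (vx oo up t j)).1 - q) ((cell b (vx oo up t j)).1 + q) ×ˢ
          Finset.Icc ((cell b (vx oo up t j)).2 - q) ((cell b (vx oo up t j)).2 + q) := by
        intro c' hc'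
        rw [hG] at hc'
        obtain ⟨i, hi, hic⟩ := Finset.mem_image.1 hc'
        rw [Finset.mem_filter, Finset.mem_Icc] at hi
        rw [← hic, Finset.mem_product]
        refine cell_close fun dir => ?_
        have e1 := hi.2
        have e2 := hj.2
        rw [NTSF.pos_sw n t i (hi.1.2.trans hy)] at e1
        rw [NTSF.pos_sw n t j (hj.1.2.trans hy)] at e2
        have e3 : ‖JJ (vx oo up t i - vx oo up t j)‖ ≤ 2 * ρ := by
          rw [NTF.JJ_sub]
          calc ‖JJ (vx oo up t i) - JJ (vx oo up t j)‖ =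
              ‖(JJ (vx oo up t i) - z) - (JJ (vx oo up t j) - z)‖ := by ring_nf
            _ ≤ ‖JJ (vx oo up t i) - z‖ + ‖JJ (vx oo up t j) - z‖ := norm_sub_le _ _
            _ ≤ 2 * ρ := by linarith
        have e4 := NTSF.lvl_le_norm dir (vx oo up t i - vx oo up t j)
        rw [NTF.lvl_sub] at e4
        have e5 : |((lvl dir (vx oo up t i) - lvl dir (vx oo up t j) : ℤ) : ℝ)| ≤ 3 * (q * 2 ^ b) := by linarith
        exact_mod_cast e5
      refine (Finset.card_le_card hsub).trans ?_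
      rw [Finset.card_product, Int.card_Icc, Int.card_Icc, sq]
      apply Nat.mul_le_mul <;> omega
    · rw [Finset.not_nonempty_iff_eq_empty.1 hne, Finset.card_empty]
      exact Nat.zero_le _
  unfold NC.nI
  exact (Finset.card_le_card h1).trans (Finset.card_biUnion_le_card_mul _ _ _ h2)

/-- **the deterministic statement** -/
theorem lowR_gen {n k J0 q : ℕ} {t : List Bool} {a c Cu K r0 : ℝ} (hn : 1 ≤ n) (ha : 0 ≤ a) (hc : 0 < c) (hK : 0 < K)
    (hs0 : 0 < size n) (hq : 4 * Cu ≤ 3 * q) (hr0 : 0 < r0)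
    (hj : ∀ r : ℝ, r0 ≤ r → r ≤ 1 → ∃ j : ℕ, j ≤ J0 ∧ r * size n ≤ Cu * 2 ^ (k - j) ∧ r ^ (-a) ≤ K * 2 ^ (a * j))
    (hnr : c / (2 * K * (2 * q + 1) ^ 2) * 4 * r0 ^ (-a) ≤ n)
    (h : ∀ x y j : ℕ, x < y → y ≤ n → j ≤ J0 → c * (((y : ℝ) - x) / n) * 2 ^ (a * j) ≤ (nI (k - j) t x y : ℝ)) :
    LowR (crv (curve (NTF.sw n t))) a (c / (2 * K * (2 * q + 1) ^ 2)) r0 := by
  intro u v hu huv hv r hr hr1 F hF
  have hn0 : (0 : ℝ) < n := by exact_mod_cast hn
  have hrp : 0 < r := hr0.trans_le hr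
  obtain ⟨c', hc'⟩ : ∃ c', c' = c / (2 * K * (2 * q + 1) ^ 2) := ⟨_, rfl⟩
  have hc'0 : 0 < c' := by
    rw [hc']
    positivity
  rw [← hc'] at hnr ⊢
  have hF1 : (1 : ℝ) ≤ F.card := by
    obtain ⟨z, hz, -⟩ := mem_iUnion₂.1 (hF ⟨u, ⟨le_rfl, huv⟩, rfl⟩)
    exact_mod_cast Finset.card_pos.2 ⟨z, hz⟩
  have hra : r ^ (-a) ≤ r0 ^ (-a) := Real.rpow_le_rpow_of_nonpos hr0 hr (by linarith)
  have hra0 : 0 < r ^ (-a) := Real.rpow_pos_of_pos hrp _
  rcases lt_or_ge ((n : ℝ) * (v - u)) 4 with hsm | hbig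
  · -- short arcs
    refine le_trans ?_ hF1
    have h1 : v - u ≤ 4 / n := by
      rw [le_div_iff₀ hn0]
      linarith
    calc c' * (v - u) * r ^ (-a) ≤ c' * (4 / n) * r0 ^ (-a) := by gcongr
      _ = c' * 4 * r0 ^ (-a) / n := by ring
      _ ≤ 1 := (div_le_one hn0).2 hnr
  · -- the letters
    obtain ⟨x, hx⟩ : ∃ x, x = ⌈(n : ℝ) * u⌉₊ := ⟨_, rfl⟩
    obtain ⟨y, hy⟩ : ∃ y, y = ⌊(n : ℝ) * v⌋₊ := ⟨_, rfl⟩
    have hx1 : (n : ℝ) * u ≤ x := by rw [hx]; exact Nat.le_ceil _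
    have hx2 : (x : ℝ) < n * u + 1 := by rw [hx]; exact Nat.ceil_lt_add_one (by positivity)
    have hv0 : 0 ≤ (n : ℝ) * v := mul_nonneg hn0.le (hu.trans huv)
    have hy1 : (y : ℝ) ≤ n * v := by rw [hy]; exact Nat.floor_le hv0
    have hy2 : (n : ℝ) * v < y + 1 := by rw [hy]; exact Nat.lt_floor_add_one _
    have hxy' : (n : ℝ) * (v - u) / 2 ≤ (y : ℝ) - x := by
      have : (n : ℝ) * (v - u) = n * v - n * u := by ring
      linarith
    have hxy : x < y := by
      have h1 : (x : ℝ) < y := by linarith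
      exact_mod_cast h1
    have hyn : y ≤ n := by
      have h1 : (y : ℝ) ≤ n := by nlinarith
      exact_mod_cast h1
    -- the scale
    obtain ⟨j, hjJ, hj1, h5⟩ := hj r hr hr1
    have h1 := h x y j hxy hyn hjJ
    have h2 : nI (k - j) t x y ≤ F.card * (2 * q + 1) ^ 2 := by
      have hcard : (F.image fun z : ℂ => z * (size n : ℂ)).card ≤ F.card := Finset.card_image_le
      refine (nI_le_cover (n := n) (ρ := r * size n) (F := F.image fun z : ℂ => z * (size n : ℂ)) hyn ?_ ?_).trans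
        (Nat.mul_le_mul_right _ hcard)
      · have e4 : (0 : ℝ) < 2 ^ (k - j) := by positivity
        nlinarith
      · intro i hi1 hi2
        have hin : i ≤ n := hi2.trans hyn
        have hti : (i : ℝ) / n ∈ Icc u v := by
          have e1 : (x : ℝ) ≤ i := by exact_mod_cast hi1
          have e2 : (i : ℝ) ≤ y := by exact_mod_cast hi2
          constructor
          · rw [le_div_iff₀ hn0]
            linarith
          · rw [div_le_iff₀ hn0]
            linarith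
        obtain ⟨z, hz, hz1⟩ := mem_iUnion₂.1 (hF ⟨(i : ℝ) / n, hti, rfl⟩)
        refine ⟨z * size n, Finset.mem_image.2 ⟨z, hz, rfl⟩, ?_⟩
        rw [mem_closedBall, dist_eq_norm, crv_node hn _ hin] at hz1
        have hsc : (size n : ℂ) ≠ 0 := by exact_mod_cast hs0.ne'
        have e1 : Pool.Agent.NTS.Res.pos (NTF.sw n t) i - z * size n =
            (Pool.Agent.NTS.Res.pos (NTF.sw n t) i / size n - z) * size n := by
          field_simp
        rw [e1, norm_mul, Complex.norm_real, Real.norm_of_nonneg hs0.le]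
        exact mul_le_mul_of_nonneg_right hz1 hs0.le
    have h3 : (nI (k - j) t x y : ℝ) ≤ F.card * (2 * q + 1) ^ 2 := by exact_mod_cast h2
    have h4 : (v - u) / 2 ≤ ((y : ℝ) - x) / n := by
      rw [le_div_iff₀ hn0]
      linarith
    have hvu : 0 ≤ v - u := by linarith
    have h6 : c * ((v - u) / 2) * (r ^ (-a) / K) ≤ F.card * (2 * q + 1) ^ 2 := by
      refine le_trans ?_ (h1.trans h3)
      have e1 : r ^ (-a) / K ≤ 2 ^ (a * j) := by
        rw [div_le_iff₀ hK]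
        linarith
      have e2 : 0 ≤ ((y : ℝ) - x) / n := le_trans (by linarith) h4
      gcongr
    rw [hc']
    have hq0 : (0 : ℝ) < (2 * q + 1) ^ 2 := by positivity
    have e7 : c / (2 * K * (2 * (q : ℝ) + 1) ^ 2) * (v - u) * r ^ (-a) =
        c * ((v - u) / 2) * (r ^ (-a) / K) / (2 * q + 1) ^ 2 := by
      rw [eq_div_iff hq0.ne', div_mul_eq_mul_div, div_mul_eq_mul_div, div_mul_eq_mul_div, div_eq_iff (by positivity)]
      field_simp
    rw [e7, div_le_iff₀ hq0]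
    exact h6

/-- the scale of a radius -/
lemma radius_scale {n k : ℕ} {a Cu r : ℝ} (ha : 0 ≤ a) (hsz : size n ≤ Cu * 2 ^ k) (hs0 : 0 < size n)
    (hrs : 1 / size n ≤ r) (hr1 : r ≤ 1) :
    ∃ j : ℕ, j ≤ k ∧ r * size n ≤ Cu * 2 ^ (k - j) ∧ r ^ (-a) ≤ (2 + Cu) ^ a * 2 ^ (a * j) ∧
      ∀ J : ℕ, (1 / 2 : ℝ) ^ J < r → j ≤ J := by
  have hCu : 0 < Cu := by
    have h1 := hs0.trans_le hsz
    by_contra hcon
    push Not at hcon
    have : Cu * 2 ^ k ≤ 0 := mul_nonpos_of_nonpos_of_nonneg hcon (by positivity)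
    linarith
  have hrp : 0 < r := lt_of_lt_of_le (by positivity) hrs
  obtain ⟨j, hj1, hj2⟩ := exists_nat_pow_near_of_lt_one hrp hr1 (by norm_num : (0 : ℝ) < 1 / 2) (by norm_num)
  have hjJ : ∀ J : ℕ, (1 / 2 : ℝ) ^ J < r → j ≤ J := by
    intro J hJ
    by_contra hcon
    push Not at hcon
    have h1 : (1 / 2 : ℝ) ^ j ≤ (1 / 2) ^ J := pow_le_pow_of_le_one (by norm_num) (by norm_num) hcon.le
    linarith
  rcases le_or_gt j k with hjk | hjk
  · refine ⟨j, hjk, ?_, ?_, hjJ⟩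
    · have e1 : r * size n ≤ (1 / 2) ^ j * (Cu * 2 ^ k) := mul_le_mul hj2 hsz hs0.le (by positivity)
      have e2 : (1 / 2 : ℝ) ^ j * (Cu * 2 ^ k) = Cu * 2 ^ (k - j) := by
        have e3 : (2 : ℝ) ^ k = 2 ^ (k - j) * 2 ^ j := by
          rw [← pow_add]
          congr 1
          omega
        rw [e3, one_div, inv_pow]
        field_simp
      rwa [e2] at e1
    · have e1 : (2 : ℝ) ^ a * 2 ^ (a * j) = ((1 / 2 : ℝ) ^ (j + 1)) ^ (-a) := by
        rw [← Real.rpow_natCast (1 / 2 : ℝ), ← Real.rpow_mul (by norm_num), one_div, Real.inv_rpow (by norm_num),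
          ← Real.rpow_neg (by norm_num), ← Real.rpow_add (by norm_num)]
        congr 1
        push_cast
        ring
      calc r ^ (-a) ≤ ((1 / 2 : ℝ) ^ (j + 1)) ^ (-a) := Real.rpow_le_rpow_of_nonpos (by positivity) hj1.le (by linarith)
        _ = (2 : ℝ) ^ a * 2 ^ (a * j) := e1.symm
        _ ≤ _ := by
            apply mul_le_mul_of_nonneg_right _ (by positivity)
            exact Real.rpow_le_rpow (by norm_num) (by linarith) ha
  · refine ⟨k, le_rfl, ?_, ?_, fun J hJ => hjk.le.trans (hjJ J hJ)⟩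
    · rw [Nat.sub_self, pow_zero, mul_one]
      have e0 : (1 / 2 : ℝ) ^ j ≤ (1 / 2) ^ k := pow_le_pow_of_le_one (by norm_num) (by norm_num) hjk.le
      calc r * size n ≤ (1 / 2) ^ k * (Cu * 2 ^ k) := mul_le_mul (hj2.trans e0) hsz hs0.le (by positivity)
        _ = Cu := by
            rw [one_div, inv_pow]
            field_simp
    · calc r ^ (-a) ≤ (1 / size n) ^ (-a) := Real.rpow_le_rpow_of_nonpos (by positivity) hrs (by linarith)
        _ = size n ^ a := by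
            rw [one_div, Real.inv_rpow hs0.le, Real.rpow_neg hs0.le, inv_inv]
        _ ≤ (Cu * 2 ^ k) ^ a := Real.rpow_le_rpow hs0.le hsz ha
        _ = Cu ^ a * 2 ^ (a * k) := by
            rw [Real.mul_rpow hCu.le (by positivity), ← Real.rpow_natCast, ← Real.rpow_mul (by norm_num), mul_comm a]
        _ ≤ _ := by
            apply mul_le_mul_of_nonneg_right _ (by positivity)
            exact Real.rpow_le_rpow hCu.le (by linarith) ha

/-- **the lower covering bound of the curves X_n, down to the step length** -/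
theorem lowN_core {m : ℕ → ℝ} {R : ℕ → ℝ} {κ : ℕ → ℕ} (hS : NTSF.ScaleX m R κ) {c0 : ℝ} {n0 : ℕ} (hc0 : 0 < c0)
    (hnu : ∀ n : ℕ, n0 ≤ n → nuX m (κ n) ≤ ENNReal.ofReal c0 * gf (SawN n)) {Cu : ℝ} {nu : ℕ}
    (hup : ∀ n : ℕ, nu ≤ n → size n ≤ Cu * R n) {a : ℝ} (ha : 0 ≤ a) (ha1 : a ≤ 4 / 3)
    {C2 : ℝ} (hC2 : ∀ n : ℕ, 1 ≤ n → size n ≤ C2 * (n : ℝ) ^ (3 / 4 : ℝ))
    (hN : ∀ eps : ℝ, 0 < eps → ∃ (c : ℝ) (k0 : ℕ), 0 < c ∧ ∀ k n : ℕ, k0 ≤ k → m k ≤ n → n < m (k + 1) →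
      gf {t | t ∈ SawN n ∧ ∃ x y j : ℕ, x < y ∧ y ≤ n ∧ j ≤ k ∧
        (nI (k - j) t x y : ℝ) < c * (((y : ℝ) - x) / n) * 2 ^ (a * j)} ≤ ENNReal.ofReal eps * nuX m k) :
    LawLowN a := by
  intro ε hε
  obtain ⟨c1, k0, hc1, hN⟩ := hN (ε / c0) (by positivity)
  obtain ⟨q, hq⟩ : ∃ q : ℕ, 4 * Cu ≤ 3 * q := by
    obtain ⟨q, hq⟩ := exists_nat_ge (4 * Cu)
    refine ⟨q, ?_⟩
    have : (0 : ℝ) ≤ q := Nat.cast_nonneg q
    linarith
  have hCu : 0 < Cu := by
    have h1 := hup (max nu 1) (le_max_left _ _)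
    have h2 := NTSF.size_pos (le_max_right nu 1)
    have h3 : 0 < R (max nu 1) := by
      rw [hS.R2]
      positivity
    by_contra hcon
    push Not at hcon
    have : Cu * R (max nu 1) ≤ 0 := mul_nonpos_of_nonpos_of_nonneg hcon h3.le
    linarith
  have hC20 : 0 < C2 := by
    have h1 := hC2 1 le_rfl
    have h2 := NTSF.size_pos (le_refl 1)
    rw [Nat.cast_one, Real.one_rpow, mul_one] at h1
    linarith
  obtain ⟨K, hK⟩ : ∃ K : ℝ, K = (2 + Cu) ^ a := ⟨_, rfl⟩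
  have hK0 : 0 < K := by
    rw [hK]
    exact Real.rpow_pos_of_pos (by linarith) _
  -- a smaller constant for the short arcs
  obtain ⟨c, hc⟩ : ∃ c : ℝ, c = min c1 (K / (2 * (1 + C2) ^ (4 / 3 : ℝ))) := ⟨_, rfl⟩
  have hP : 0 < (1 + C2) ^ (4 / 3 : ℝ) := Real.rpow_pos_of_pos (by linarith) _
  have hcp : 0 < c := by
    rw [hc]
    exact lt_min hc1 (by positivity)
  have hcc1 : c ≤ c1 := by
    rw [hc]
    exact min_le_left _ _
  have hcK : c ≤ K / (2 * (1 + C2) ^ (4 / 3 : ℝ)) := by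
    rw [hc]
    exact min_le_right _ _
  obtain ⟨n1, h1⟩ := NTSF.event_le hS hnu (k0 := k0) (e := ε / c0) (by positivity)
    (E := fun n => {t | t ∈ SawN n ∧ ∃ x y j : ℕ, x < y ∧ y ≤ n ∧ j ≤ κ n ∧
      (nI (κ n - j) t x y : ℝ) < c1 * (((y : ℝ) - x) / n) * 2 ^ (a * j)}) (by
      intro k n hk a1 a2 hkn
      refine (gf_mono ?_).trans (hN k n hk a1 a2)
      rintro t ⟨ht, x, y, j, hxy, hy, hj, hlt⟩
      rw [hkn] at hlt hj
      exact ⟨ht, x, y, j, hxy, hy, hj, hlt⟩)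
  rw [div_mul_cancel₀ _ hc0.ne'] at h1
  refine ⟨c / (2 * K * (2 * q + 1) ^ 2), by positivity, max n1 (max nu 1), fun n hn => ?_⟩
  have b1 : n1 ≤ n := le_of_max_le_left hn
  have b4 : nu ≤ n := (le_max_left _ _).trans (le_of_max_le_right hn)
  have b5 : 1 ≤ n := (le_max_right _ _).trans (le_of_max_le_right hn)
  have hn0 : (0 : ℝ) < n := by exact_mod_cast b5
  have hs0 := NTSF.size_pos b5
  have hsz : size n ≤ Cu * 2 ^ κ n := by
    rw [← hS.R2 n]
    exact hup n b4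
  have h6 := prop_le (n := n) b5 (fun s => ¬ LowR (crv (curve s)) a (c / (2 * K * (2 * q + 1) ^ 2)) (1 / size n))
    (fun s => not_congr (lowR_rot s)) hε.le ?_ (h1 n b1)
  · apply law_le hε.le
    convert h6
  intro t ht hcon
  by_contra h4
  refine hcon (lowR_gen (k := κ n) (J0 := κ n) (Cu := Cu) b5 ha hcp hK0 hs0 hq (by positivity)
    (fun r hr hr1 => ?_) ?_ ?_)
  · obtain ⟨j, hj1, hj2, hj3, -⟩ := radius_scale ha hsz hs0 hr hr1
    rw [hK]
    exact ⟨j, hj1, hj2, hj3⟩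
  · -- the short arcs
    have e1 : (1 / size n) ^ (-a) = size n ^ a := by
      rw [one_div, Real.inv_rpow hs0.le, Real.rpow_neg hs0.le, inv_inv]
    have e2 : size n ^ a ≤ (1 + C2) ^ (4 / 3 : ℝ) * n := by
      have e3 : size n ≤ (1 + C2) * (n : ℝ) ^ (3 / 4 : ℝ) := by
        refine (hC2 n b5).trans ?_
        gcongr
        linarith
      have e4 : (1 : ℝ) ≤ (1 + C2) * (n : ℝ) ^ (3 / 4 : ℝ) := by
        have e5 : (1 : ℝ) ≤ (n : ℝ) ^ (3 / 4 : ℝ) :=
          Real.one_le_rpow (by exact_mod_cast b5) (by norm_num)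
        nlinarith
      calc size n ^ a ≤ ((1 + C2) * (n : ℝ) ^ (3 / 4 : ℝ)) ^ a := Real.rpow_le_rpow hs0.le e3 ha
        _ ≤ ((1 + C2) * (n : ℝ) ^ (3 / 4 : ℝ)) ^ (4 / 3 : ℝ) := Real.rpow_le_rpow_of_exponent_le e4 ha1
        _ = (1 + C2) ^ (4 / 3 : ℝ) * n := by
            rw [Real.mul_rpow (by linarith) (by positivity), ← Real.rpow_mul hn0.le]
            norm_num
    rw [e1]
    have hq1 : (1 : ℝ) ≤ (2 * q + 1) ^ 2 := by
      have : (0 : ℝ) ≤ q := Nat.cast_nonneg q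
      nlinarith
    have e6 : c / (2 * K * (2 * q + 1) ^ 2) ≤ c / (2 * K) := by
      apply div_le_div_of_nonneg_left hcp.le (by positivity)
      nlinarith
    have e7 : c / (2 * K) ≤ 1 / (4 * (1 + C2) ^ (4 / 3 : ℝ)) := by
      rw [div_le_div_iff₀ (by positivity) (by positivity)]
      rw [le_div_iff₀ (by positivity)] at hcK
      nlinarith
    calc c / (2 * K * (2 * q + 1) ^ 2) * 4 * size n ^ a ≤
        1 / (4 * (1 + C2) ^ (4 / 3 : ℝ)) * 4 * ((1 + C2) ^ (4 / 3 : ℝ) * n) := by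
          have := e6.trans e7
          gcongr
      _ = n := by field_simp
  · intro x y j hxy hy hj
    by_contra h5
    push Not at h5
    refine h4 ⟨ht, x, y, j, hxy, hy, hj, h5.trans_le ?_⟩
    have e1 : (0 : ℝ) ≤ ((y : ℝ) - x) / n := by
      have : (x : ℝ) ≤ y := by exact_mod_cast hxy.le
      apply div_nonneg _ hn0.le
      linarith
    gcongr

/-- from the curves X_n to a fixed radius -/
theorem lawLow_of_N {a : ℝ} (ha : 0 ≤ a) (hs : Tendsto size atTop atTop) (h : LawLowN a) : LawLow a := by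
  intro ε hε
  obtain ⟨c, hc, n0, h⟩ := h ε hε
  refine ⟨c, hc, fun r0 hr0 => ?_⟩
  obtain ⟨n1, h1⟩ := (tendsto_atTop.1 hs (1 / r0)).exists_forall_of_atTop
  refine ⟨max n0 n1, fun n hn => (measure_mono ?_).trans (h n (le_of_max_le_left hn))⟩
  intro γ hγ hcon
  refine hγ (hcon.anti le_rfl ?_ hr0)
  have h2 := h1 n (le_of_max_le_right hn)
  have h3 : 0 < size n := lt_of_lt_of_le (by positivity) h2
  rw [div_le_iff₀ h3]
  rwa [div_le_iff₀ hr0, mul_comm] at h2

end DIM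

end HexObs
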