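import Pool.Agent.DIM.Tree
import Mathlib.Topology.Order.IntermediateValue
import Mathlib.Topology.Order.Compact

/-!
DIM: a curve every piece of which is rich at infinitely many scales has a large Hausdorff dimension.
-/

set_option autoImplicit false

namespace HexObs

namespace DIM

open MeasureTheory Set Metric

open scoped ENNReal NNReal

/-- the pieces of the curve f that go at least to the distance r cannot be covered by less than N balls of radius ρ -/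
def Cov {E : Type*} [PseudoMetricSpace E] (f : ℝ → E) (r ρ : ℝ) (N : ℕ) : Prop :=
  ∀ u v : ℝ, 0 ≤ u → u ≤ v → v ≤ 1 → r ≤ dist (f u) (f v) → ∀ F : Finset E,
    f '' Icc u v ⊆ ⋃ z ∈ F, closedBall z ρ → N ≤ F.card

/-- the pieces -/
def Pc {E : Type*} [PseudoMetricSpace E] (f : ℝ → E) (r : ℝ) : Set (Set E) :=
  {A | ∃ u v : ℝ, 0 ≤ u ∧ u ≤ v ∧ v ≤ 1 ∧ r ≤ dist (f u) (f v) ∧ A = f '' Icc u v}

section metric

variable {E : Type*} [PseudoMetricSpace E]

/-- first exit of a ball -/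
lemma first_exit {f : ℝ → E} {a b ρ : ℝ} (hab : a ≤ b) (hf : ContinuousOn f (Icc a b)) (hρ : 0 ≤ ρ)
    (h : ρ ≤ dist (f a) (f b)) : ∃ c ∈ Icc a b, ρ ≤ dist (f a) (f c) ∧ ∀ w ∈ Icc a c, dist (f a) (f w) ≤ ρ := by
  have hg : ContinuousOn (fun w => dist (f a) (f w)) (Icc a b) := continuous_dist.comp_continuousOn (continuousOn_const.prodMk hf)
  have hS : IsCompact {w | w ∈ Icc a b ∧ ρ ≤ dist (f a) (f w)} := by
    refine isCompact_Icc.of_isClosed_subset ?_ fun w hw => hw.1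
    have := hg.preimage_isClosed_of_isClosed isClosed_Icc (isClosed_Ici (a := ρ))
    exact this
  obtain ⟨c, hc, hcl⟩ := hS.exists_isLeast ⟨b, ⟨hab, le_rfl⟩, h⟩
  refine ⟨c, hc.1, hc.2, fun w hw => ?_⟩
  have hsub : Icc a c ⊆ Icc a b := Icc_subset_Icc le_rfl hc.1.2
  obtain ⟨c', hc', hcv⟩ := intermediate_value_Icc hc.1.1 (hg.mono hsub) (show ρ ∈ Icc (dist (f a) (f a)) (dist (f a) (f c)) from
    ⟨by rw [dist_self]; exact hρ, hc.2⟩)
  simp only at hcv
  have h1 : c ≤ c' := hcl ⟨hsub hc', hcv.ge⟩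
  have h2 : c' = c := le_antisymm hc'.2 h1
  by_contra hlt
  push Not at hlt
  have h3 : c ≤ w := hcl ⟨hsub hw, hlt.le⟩
  have h4 : w = c := le_antisymm hw.2 h3
  rw [h4, ← h2, hcv] at hlt
  exact lt_irrefl _ hlt

/-- last exit, backwards -/
lemma last_exit {f : ℝ → E} {a b ρ : ℝ} (hab : a ≤ b) (hf : ContinuousOn f (Icc a b)) (hρ : 0 ≤ ρ)
    (h : ρ ≤ dist (f a) (f b)) : ∃ c ∈ Icc a b, ρ ≤ dist (f c) (f b) ∧ ∀ w ∈ Icc c b, dist (f b) (f w) ≤ ρ := by
  have hneg : ContinuousOn (fun x : ℝ => f (-x)) (Icc (-b) (-a)) := by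
    refine hf.comp continuous_neg.continuousOn ?_
    intro x hx
    exact ⟨by linarith [hx.2], by linarith [hx.1]⟩
  obtain ⟨c, hc, hc1, hc2⟩ := first_exit (f := fun x : ℝ => f (-x)) (a := -b) (b := -a) (ρ := ρ) (by linarith) hneg hρ
    (by simp only [neg_neg]; rw [dist_comm]; exact h)
  simp only [neg_neg] at hc1 hc2
  refine ⟨-c, ⟨by linarith [hc.2], by linarith [hc.1]⟩, by rw [dist_comm]; exact hc1, fun w hw => ?_⟩
  have := hc2 (-w) ⟨by linarith [hw.2], by linarith [hw.1]⟩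
  rwa [neg_neg] at this

/-- many separated points -/
lemma sep_points {A : Set E} (hA : A.Nonempty) {ρ : ℝ} {N : ℕ}
    (h : ∀ F : Finset E, A ⊆ ⋃ z ∈ F, closedBall z ρ → N ≤ F.card) :
    ∃ p : ℕ → E, (∀ j < N, p j ∈ A) ∧ ∀ j < N, ∀ l < N, j ≠ l → ρ < dist (p j) (p l) := by
  classical
  have key : ∀ n ≤ N, ∃ p : ℕ → E, (∀ j < n, p j ∈ A) ∧ ∀ j < n, ∀ l < n, j ≠ l → ρ < dist (p j) (p l) := by
    intro n
    induction n with
    | zero =>
      intro _
      exact ⟨fun _ => hA.some, fun j hj => absurd hj (Nat.not_lt_zero j), fun j hj => absurd hj (Nat.not_lt_zero j)⟩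
    | succ n ih =>
      intro hn
      obtain ⟨p, hp1, hp2⟩ := ih (by omega)
      have h1 : ¬ A ⊆ ⋃ z ∈ (Finset.range n).image p, closedBall z ρ := by
        intro h2
        have h3 := h _ h2
        have h4 : ((Finset.range n).image p).card ≤ n := by
          refine Finset.card_image_le.trans ?_
          rw [Finset.card_range]
        omega
      rw [not_subset] at h1
      obtain ⟨x, hxA, hx⟩ := h1
      have hx' : ∀ j < n, ρ < dist x (p j) := by
        intro j hj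
        by_contra hle
        push Not at hle
        exact hx (mem_iUnion₂.2 ⟨p j, Finset.mem_image.2 ⟨j, Finset.mem_range.2 hj, rfl⟩, mem_closedBall.2 hle⟩)
      refine ⟨fun j => if j < n then p j else x, fun j hj => ?_, fun j hj l hl hjl => ?_⟩
      · show (if j < n then p j else x) ∈ A
        split_ifs with h5
        · exact hp1 j h5
        · exact hxA
      · show ρ < dist (if j < n then p j else x) (if l < n then p l else x)
        split_ifs with h5 h6 h6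
        · exact hp2 j h5 l h6 hjl
        · rw [dist_comm]
          exact hx' j h5
        · exact hx' l h6
        · omega
  exact key N le_rfl

/-- one point of a piece: a small piece at this point -/
lemma small_piece {f : ℝ → E} (hf : ContinuousOn f (Icc 0 1)) {u v t R ρ : ℝ} (h0 : 0 ≤ u) (hv : v ≤ 1)
    (hR : R ≤ dist (f u) (f v)) (hρ : 0 < ρ) (hRρ : 2 * ρ ≤ R) (ht : t ∈ Icc u v) :
    ∃ B ∈ Pc f ρ, B ⊆ f '' Icc u v ∧ ∀ x ∈ B, dist (f t) x ≤ ρ := by
  have h1 : ρ ≤ dist (f t) (f v) ∨ ρ ≤ dist (f u) (f t) := by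
    by_contra h
    push Not at h
    have := dist_triangle (f u) (f t) (f v)
    linarith
  rcases h1 with h1 | h1
  · obtain ⟨c, hc, hc1, hc2⟩ := first_exit ht.2 (hf.mono (Icc_subset_Icc (by linarith [ht.1]) hv)) hρ.le h1
    refine ⟨f '' Icc t c, ⟨t, c, by linarith [ht.1], hc.1, by linarith [hc.2], hc1, rfl⟩,
      image_mono (Icc_subset_Icc ht.1 hc.2), ?_⟩
    rintro _ ⟨w, hw, rfl⟩
    exact hc2 w hw
  · obtain ⟨c, hc, hc1, hc2⟩ := last_exit ht.1 (hf.mono (Icc_subset_Icc h0 (by linarith [ht.2]))) hρ.le h1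
    refine ⟨f '' Icc c t, ⟨c, t, by linarith [hc.1], hc.2, by linarith [ht.2], hc1, rfl⟩,
      image_mono (Icc_subset_Icc hc.1 ht.2), ?_⟩
    rintro _ ⟨w, hw, rfl⟩
    exact hc2 w hw

/-- the children of a piece -/
lemma piece_split {f : ℝ → E} (hf : ContinuousOn f (Icc 0 1)) {R ρ : ℝ} {N : ℕ} (hρ : 0 < ρ) (hRρ : 2 * ρ ≤ R)
    (hC : Cov f R (4 * ρ) N) {A : Set E} (hA : A ∈ Pc f R) : ∃ B : ℕ → Set E, (∀ j < N, B j ∈ Pc f ρ ∧ B j ⊆ A) ∧
      ∀ j < N, ∀ l < N, j ≠ l → ∀ x ∈ B j, ∀ y ∈ B l, 2 * ρ < dist x y := by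
  obtain ⟨u, v, h0, huv, hv, hR, rfl⟩ := hA
  obtain ⟨p, hp1, hp2⟩ := sep_points (A := f '' Icc u v) ⟨f u, u, ⟨le_rfl, huv⟩, rfl⟩ (hC u v h0 huv hv hR)
  have h1 : ∀ j, ∃ B : Set E, j < N → B ∈ Pc f ρ ∧ B ⊆ f '' Icc u v ∧ ∀ x ∈ B, dist (p j) x ≤ ρ := by
    intro j
    by_cases hj : j < N
    · obtain ⟨t, ht, htp⟩ := hp1 j hj
      obtain ⟨B, hB1, hB2, hB3⟩ := small_piece hf h0 hv hR hρ hRρ ht
      rw [htp] at hB3
      exact ⟨B, fun _ => ⟨hB1, hB2, hB3⟩⟩
    · exact ⟨∅, fun h => absurd h hj⟩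
  choose B hB using h1
  refine ⟨B, fun j hj => ⟨(hB j hj).1, (hB j hj).2.1⟩, fun j hj l hl hjl x hx y hy => ?_⟩
  have a1 := hp2 j hj l hl hjl
  have a2 := (hB j hj).2.2 x hx
  have a3 := (hB l hl).2.2 y hy
  have a4 := dist_triangle4 (p j) x y (p l)
  rw [dist_comm y (p l)] at a4
  linarith

end metric

/-- **a curve every piece of which is rich at infinitely many scales has a large Hausdorff dimension** -/
theorem dim_curve {E : Type*} [MetricSpace E] {f : ℝ → E} (hf : ContinuousOn f (Icc 0 1)) {r : ℕ → ℝ} {N : ℕ → ℕ}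
    (hrp : ∀ i, 0 < r i) (hr4 : ∀ i, 2 * r (i + 1) ≤ r i) (hN : ∀ i, 1 ≤ N i)
    (hC : ∀ i, Cov f (r i) (4 * r (i + 1)) (N i)) (hroot : ∃ u v : ℝ, 0 ≤ u ∧ u ≤ v ∧ v ≤ 1 ∧ r 0 ≤ dist (f u) (f v))
    {s : ℝ≥0} {C : ℝ} (hC0 : 0 < C) (hP : ∀ i, 1 ≤ C * PP N i * (2 * r (i + 1)) ^ (s : ℝ)) :
    (s : ℝ≥0∞) ≤ dimH (f '' Icc 0 1) := by
  borelize E
  obtain ⟨u, v, h0, huv, hv, hR⟩ := hroot
  have hsub : Icc u v ⊆ Icc (0 : ℝ) 1 := Icc_subset_Icc h0 hv
  have hle : ∀ i, r i ≤ r 0 * (1 / 2) ^ i := by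
    intro i
    induction i with
    | zero => simp
    | succ i ih =>
      rw [pow_succ]
      nlinarith [hr4 i]
  have htend : Filter.Tendsto r Filter.atTop (nhds 0) := by
    refine squeeze_zero (fun i => (hrp i).le) hle ?_
    have := (tendsto_pow_atTop_nhds_zero_of_lt_one (r := (1 / 2 : ℝ)) (by norm_num) (by norm_num)).const_mul (r 0)
    simpa using this
  have hmain := haus_pos (Nd := fun i => Pc f (r i)) (r := r) (N := N) (fun i A hA =>
      piece_split hf (hrp (i + 1)) (hr4 i) (hC i) hA) hN (fun i A hA => by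
        obtain ⟨u, v, -, huv, -, -, rfl⟩ := hA
        exact ⟨f u, u, ⟨le_rfl, huv⟩, rfl⟩) htend hrp s.2 hC0 hP (A := f '' Icc u v)
      ⟨u, v, h0, huv, hv, hR, rfl⟩ (isCompact_Icc.image_of_continuousOn (hf.mono hsub))
  refine le_trans (le_dimH_of_hausdorffMeasure_ne_zero (s := f '' Icc u v) ?_) (dimH_mono (image_mono hsub))
  intro h
  have hmain' := hmain.trans_eq h
  have : 0 < ENNReal.ofReal (1 / C) := ENNReal.ofReal_pos.2 (by positivity)
  exact absurd hmain' (not_le.2 this)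

end DIM

end HexObs
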