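import Pool.Agent.NTS.ExDefs
import Pool.Agent.NC.CellI

/-!
DIM: the natural content from below for EVERY step number, the literal statement on the words.
-/

set_option autoImplicit false

namespace HexObs

namespace DIM

open Finset TS SDN NTW

open scoped ENNReal

/-- off a small part of the walks with n letters (m k ≤ n < m (k + 1)), every piece [x, y] visits at least
c ((y - x) / n) 2 ^ ((D - e) j) cells of side 2 ^ (k - j) -/
def NCX (m : ℕ → ℝ) (D : ℝ) : Prop := ∀ e ε : ℝ, 0 < e → 0 < ε → ∃ c : ℝ, 0 < c ∧ ∀ J0 : ℕ, ∃ k0 : ℕ, ∀ k n : ℕ,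
  k0 ≤ k → m k ≤ n → n < m (k + 1) →
    gf {t | t ∈ SawN n ∧ ∃ x y j : ℕ, x < y ∧ y ≤ n ∧ j ≤ J0 ∧
      (NC.nI (k - j) t x y : ℝ) < c * (((y : ℝ) - x) / n) * (2 : ℝ) ^ ((D - e) * j)} ≤ ENNReal.ofReal ε * nuX m k

end DIM

end HexObs
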