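import Pool.Agent.DIM.Glue
import Pool.Agent.DIM.ResDefs
import Pool.Agent.DIM.CellBall
import Pool.Agent.NTS.ResultOut

/-!
# DIM/FinN: the natural content of X_n and of the weak limits (helper83)

* `lawLowN_all` : all the step numbers `n ≥ 1`;
* `content_of` : `Content` (public words) from `LowR` and `UpR`;
* **`contentN`** : the content of `X_n`, every `n ≥ 1`;
* `limit_words` : the content and the dimension of a limit curve in public words;
* **`dim_result`** : the statement of the hand-in from the conclusion for every step number and the lower covering bound.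
-/

set_option autoImplicit false

namespace HexObs

namespace DIM

open MeasureTheory Set Metric Filter Topology

open Pool.Agent.NTS.Res

open Pool.Agent.DIM.Res (Content)

open scoped ENNReal Classical

/-- the arcs can be covered by few balls, radius at least `r0` -/
def UpR (f : ℝ → ℂ) (a c r0 : ℝ) : Prop := ∀ u v : ℝ, 0 ≤ u → u ≤ v → v ≤ 1 → ∀ r : ℝ, r0 ≤ r → r ≤ 1 →
  ∃ F : Finset ℂ, f '' Icc u v ⊆ ⋃ z ∈ F, closedBall z r ∧ (F.card : ℝ) ≤ 1 + (v - u) * r ^ (-a) / c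

lemma lowR_small {f : ℝ → ℂ} {a c r0 : ℝ} (ha : 0 ≤ a) (hr0 : 0 < r0) (hc : 0 ≤ c) (h : c * r0 ^ (-a) ≤ 1) :
    LowR f a c r0 := by
  intro u v hu huv hv r hr hr1 F hF
  have hF1 : (1 : ℝ) ≤ F.card := by
    obtain ⟨z, hz, -⟩ := mem_iUnion₂.1 (hF ⟨u, ⟨le_rfl, huv⟩, rfl⟩)
    exact_mod_cast Finset.card_pos.2 ⟨z, hz⟩
  refine le_trans ?_ hF1
  have h1 : r ^ (-a) ≤ r0 ^ (-a) := Real.rpow_le_rpow_of_nonpos hr0 hr (by linarith)
  have h2 : 0 < r ^ (-a) := Real.rpow_pos_of_pos (hr0.trans_le hr) _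
  calc c * (v - u) * r ^ (-a) ≤ c * 1 * r0 ^ (-a) := by
        gcongr
        linarith
    _ ≤ 1 := by rwa [mul_one]

/-- all the step numbers -/
theorem lawLowN_all {a : ℝ} (ha : 0 ≤ a) (h : LawLowN a) : ∀ ε : ℝ, 0 < ε → ∃ c : ℝ, 0 < c ∧ ∀ n : ℕ, 1 ≤ n →
    law n {γ : C(unitInterval, ℂ) | ¬ LowR (crv γ) a c (1 / size n)} ≤ ENNReal.ofReal ε := by
  intro ε hε
  obtain ⟨c, hc, n0, h⟩ := h ε hε
  obtain ⟨S, hS⟩ : ∃ S : ℝ, S = 1 + ∑ n ∈ Finset.range n0, |size n| := ⟨_, rfl⟩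
  have hS0 : 1 ≤ S := by
    rw [hS]
    have := Finset.sum_nonneg (s := Finset.range n0) fun n _ => abs_nonneg (size n)
    linarith
  have hSp : 0 < S ^ (-a) := Real.rpow_pos_of_pos (by linarith) _
  refine ⟨min c (S ^ (-a)), lt_min hc hSp, fun n hn => ?_⟩
  have hs := NTSF.size_pos hn
  rcases le_or_gt n0 n with h1 | h1
  · refine le_trans (measure_mono ?_) (h n h1)
    intro γ hγ hcon
    exact hγ (hcon.anti (min_le_left _ _) le_rfl (by positivity))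
  · refine le_trans (le_of_eq (NTSF.law_zero fun s _ hcon => hcon (lowR_small ha (by positivity)
      (lt_min hc hSp).le ?_))) zero_le
    have h2 : size n ≤ S := by
      rw [hS]
      have h3 := Finset.single_le_sum (f := fun n => |size n|) (fun n _ => abs_nonneg (size n))
        (Finset.mem_range.2 h1)
      have h4 := le_abs_self (size n)
      linarith
    have e1 : (1 / size n) ^ (-a) = size n ^ a := by
      rw [one_div, Real.inv_rpow hs.le, Real.rpow_neg hs.le, inv_inv]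
    rw [e1]
    calc min c (S ^ (-a)) * size n ^ a ≤ S ^ (-a) * S ^ a := by
          apply mul_le_mul (min_le_right _ _) (Real.rpow_le_rpow hs.le h2 ha) (by positivity) hSp.le
      _ = 1 := by
          rw [← Real.rpow_add (by linarith), neg_add_cancel, Real.rpow_zero]

/-- the public words -/
theorem content_of {γ : C(unitInterval, ℂ)} {e c ρ : ℝ} (h1 : LowR (crv γ) (4 / 3 - e) c ρ)
    (h2 : UpR (crv γ) (4 / 3 + e) c ρ) : Content γ e c ρ := by
  intro u v huv r hr hr1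
  rw [← crv_image]
  exact ⟨fun F hF => h1 u v u.2.1 huv v.2.2 r hr hr1 F hF, h2 u v u.2.1 huv v.2.2 r hr hr1⟩

lemma UpR.of {f : ℝ → ℂ} {a c r0 : ℝ} (h : UpC f a c) (h0 : 0 < r0) : UpR f a c r0 :=
  fun u v hu huv hv r hr hr1 => h u v hu huv hv r (h0.trans_le hr) hr1

lemma LowR.of {f : ℝ → ℂ} {a c r0 : ℝ} (h : LowC f a c) (h0 : 0 < r0) : LowR f a c r0 :=
  fun u v hu huv hv r hr hr1 => h u v hu huv hv r (h0.trans_le hr) hr1

/-- an exponent between -/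
lemma exp_exists {e : ℝ} (he : 0 < e) : ∃ a : NNReal, 0 < a ∧ (a : ℝ) < 3 / 4 ∧ 1 / (a : ℝ) ≤ 4 / 3 + e := by
  refine ⟨⟨1 / (4 / 3 + e), by positivity⟩, ?_, ?_, ?_⟩
  · rw [← NNReal.coe_pos]
    show 0 < 1 / (4 / 3 + e)
    positivity
  · show 1 / (4 / 3 + e) < 3 / 4
    rw [div_lt_div_iff₀ (by positivity) (by norm_num)]
    linarith
  · show 1 / (1 / (4 / 3 + e)) ≤ 4 / 3 + e
    rw [one_div_one_div]

/-- a Hoelder function can be covered by few balls, explicit constant -/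
theorem upC_unif {f : ℝ → ℂ} {M α b : ℝ} (hM : 0 < M) (hα : 0 < α) (hb : 1 / α ≤ b)
    (hf : ∀ u v : ℝ, 0 ≤ u → u ≤ v → v ≤ 1 → dist (f u) (f v) ≤ M * (v - u) ^ α) :
    UpC f b (M ^ (-(1 / α))) := by
  intro u v hu huv hv r hr hr1
  obtain ⟨δ, hδ⟩ : ∃ δ : ℝ, δ = (r / M) ^ (1 / α) := ⟨_, rfl⟩
  have hrM : 0 < r / M := by positivity
  have hδ0 : 0 < δ := by
    rw [hδ]
    exact Real.rpow_pos_of_pos hrM _
  have hδα : M * δ ^ α = r := by
    rw [hδ, ← Real.rpow_mul hrM.le, one_div_mul_cancel hα.ne', Real.rpow_one]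
    field_simp
  obtain ⟨N, hN⟩ : ∃ N : ℕ, N = ⌊(v - u) / δ⌋₊ := ⟨_, rfl⟩
  have hvu : 0 ≤ v - u := by linarith
  have hN1 : (N : ℝ) ≤ (v - u) / δ := by
    rw [hN]
    exact Nat.floor_le (by positivity)
  refine ⟨(Finset.range (N + 1)).image fun k : ℕ => f (u + k * δ), ?_, ?_⟩
  · rintro _ ⟨t, ht, rfl⟩
    have htu : 0 ≤ (t - u) / δ := div_nonneg (by linarith [ht.1]) hδ0.le
    obtain ⟨k, hk⟩ : ∃ k : ℕ, k = ⌊(t - u) / δ⌋₊ := ⟨_, rfl⟩
    have hk1 : (k : ℝ) ≤ (t - u) / δ := by rw [hk]; exact Nat.floor_le htu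
    have hk2 : (t - u) / δ < k + 1 := by rw [hk]; exact Nat.lt_floor_add_one _
    rw [le_div_iff₀ hδ0] at hk1
    rw [div_lt_iff₀ hδ0] at hk2
    have hkN : k ≤ N := by
      rw [hk, hN]
      apply Nat.floor_le_floor
      have := ht.2
      gcongr
    refine mem_iUnion₂.2 ⟨f (u + k * δ), Finset.mem_image.2 ⟨k, Finset.mem_range.2 (by omega), rfl⟩, ?_⟩
    rw [mem_closedBall, dist_comm]
    have hk0 : 0 ≤ (k : ℝ) * δ := by positivity
    refine (hf (u + k * δ) t (by linarith) (by linarith) (by linarith [ht.2])).trans ?_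
    rw [← hδα]
    apply mul_le_mul_of_nonneg_left _ hM.le
    apply Real.rpow_le_rpow (by linarith) (by linarith) hα.le
  · have h1 : (((Finset.range (N + 1)).image fun k : ℕ => f (u + k * δ)).card : ℝ) ≤ N + 1 := by
      have h2 : ((Finset.range (N + 1)).image fun k : ℕ => f (u + k * δ)).card ≤ N + 1 := by
        refine Finset.card_image_le.trans ?_
        rw [Finset.card_range]
      exact_mod_cast h2
    have h2 : (v - u) / δ ≤ (v - u) * r ^ (-b) / M ^ (-(1 / α)) := by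
      have h3 : 1 / δ = M ^ (1 / α) * r ^ (-(1 / α)) := by
        rw [hδ, Real.div_rpow hr.le hM.le, Real.rpow_neg hr.le, one_div, inv_div, div_eq_mul_inv]
      have h4 : r ^ (-(1 / α)) ≤ r ^ (-b) := Real.rpow_le_rpow_of_exponent_ge hr hr1 (by linarith)
      have h5 : 0 < M ^ (1 / α) := Real.rpow_pos_of_pos hM _
      calc (v - u) / δ = (v - u) * (1 / δ) := by ring
        _ = (v - u) * (M ^ (1 / α) * r ^ (-(1 / α))) := by rw [h3]
        _ ≤ (v - u) * (M ^ (1 / α) * r ^ (-b)) := by gcongr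
        _ = (v - u) * r ^ (-b) / M ^ (-(1 / α)) := by
            rw [Real.rpow_neg hM.le, div_inv_eq_mul]
            ring
    linarith

/-- the curves with a given Hoelder constant, one constant -/
lemma upC_law {a M : NNReal} {b : ℝ} (ha : 0 < a) (hb : 1 / (a : ℝ) ≤ b) : ∃ c : ℝ, 0 < c ∧
    ∀ γ : C(unitInterval, ℂ), HolderWith M a γ → UpC (crv γ) b c := by
  have ha' : (0 : ℝ) < a := ha
  have hM1 : (0 : ℝ) < M + 1 := by positivity
  refine ⟨((M : ℝ) + 1) ^ (-(1 / (a : ℝ))), Real.rpow_pos_of_pos hM1 _, fun γ hγ => upC_unif hM1 ha' hb ?_⟩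
  intro u v hu huv hv
  refine (crv_holder hγ u v hu huv hv).trans ?_
  have h1 : 0 ≤ (v - u) ^ (a : ℝ) := Real.rpow_nonneg (by linarith) _
  nlinarith

/-- **the content of X_n, every n** -/
theorem contentN (hL : ∀ e : ℝ, 0 < e → e ≤ 4 / 3 → LawLowN (4 / 3 - e))
    (hH : ∀ a : NNReal, 0 < a → (a : ℝ) < 3 / 4 → ∀ ε : ℝ, 0 < ε → ∃ M : NNReal, ∀ n : ℕ, 1 ≤ n →
      law n {γ : C(unitInterval, ℂ) | ¬ HolderWith M a γ} ≤ ENNReal.ofReal ε) :
    ∀ e ε : ℝ, 0 < e → 0 < ε → ∃ c : ℝ, 0 < c ∧ ∀ n : ℕ, 1 ≤ n →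
      law n {γ : C(unitInterval, ℂ) | ¬ Content γ e c (1 / size n)} ≤ ENNReal.ofReal ε := by
  intro e ε he hε
  obtain ⟨e', he'⟩ : ∃ e' : ℝ, e' = min e (4 / 3) := ⟨_, rfl⟩
  have he0 : 0 < e' := by rw [he']; exact lt_min he (by norm_num)
  have he1 : e' ≤ 4 / 3 := by rw [he']; exact min_le_right _ _
  have he2 : e' ≤ e := by rw [he']; exact min_le_left _ _
  obtain ⟨c1, hc1, h1⟩ := lawLowN_all (a := 4 / 3 - e') (by linarith) (hL e' he0 he1) (ε / 2) (by positivity)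
  obtain ⟨a, ha0, ha1, ha2⟩ := exp_exists he
  obtain ⟨M, h2⟩ := hH a ha0 ha1 (ε / 2) (by positivity)
  obtain ⟨c2, hc20, hUp⟩ := upC_law (M := M) ha0 ha2
  refine ⟨min c1 c2, lt_min hc1 hc20, fun n hn => ?_⟩
  have hs := NTSF.size_pos hn
  have hs1 : 0 < 1 / size n := by positivity
  have hsub : {γ : C(unitInterval, ℂ) | ¬ Content γ e (min c1 c2) (1 / size n)} ⊆
      {γ | ¬ LowR (crv γ) (4 / 3 - e') c1 (1 / size n)} ∪ {γ | ¬ HolderWith M a γ} := by
    intro γ hγ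
    by_contra hcon
    rw [mem_union, not_or] at hcon
    obtain ⟨h3, h4⟩ := hcon
    rw [mem_ofPred_eq, not_not] at h3 h4
    refine hγ (content_of ?_ (UpR.of (UpC.anti (hUp γ h4) (lt_min hc1 hc20) (min_le_right _ _)) hs1))
    intro u v hu huv hv r hr hr1 F hF
    refine le_trans ?_ (h3 u v hu huv hv r hr hr1 F hF)
    have hrp : 0 < r := hs1.trans_le hr
    have h5 : 0 ≤ v - u := by linarith
    have h6 : r ^ (-(4 / 3 - e)) ≤ r ^ (-(4 / 3 - e')) := Real.rpow_le_rpow_of_exponent_ge hrp hr1 (by linarith)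
    have h7 : 0 < r ^ (-(4 / 3 - e)) := Real.rpow_pos_of_pos hrp _
    calc min c1 c2 * (v - u) * r ^ (-(4 / 3 - e)) ≤ c1 * (v - u) * r ^ (-(4 / 3 - e)) := by
          gcongr
          exact min_le_left _ _
      _ ≤ _ := by gcongr
  refine (measure_mono hsub).trans ((measure_union_le _ _).trans ?_)
  refine (add_le_add (h1 n hn) (h2 n hn)).trans (le_of_eq ?_)
  rw [← ENNReal.ofReal_add (by positivity) (by positivity), add_halves]

/-- the content of a limit curve, in public words -/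
theorem limit_words {γ : C(unitInterval, ℂ)} (h : NatC (crv γ) (4 / 3)) :
    ∀ e : ℝ, 0 < e → ∃ c : ℝ, 0 < c ∧ ∀ ρ : ℝ, 0 < ρ → Content γ e c ρ := by
  intro e he
  obtain ⟨c, hc, h1, h2⟩ := h e he
  exact ⟨c, hc, fun ρ hρ => content_of (LowR.of h1 hρ) (UpR.of h2 hρ)⟩

/-- all the exponents -/
theorem lawLow_all (hs : Tendsto size atTop atTop) (hL : ∀ e : ℝ, 0 < e → e ≤ 4 / 3 → LawLowN (4 / 3 - e)) (e : ℝ)
    (he : 0 < e) : LawLow (4 / 3 - e) := by
  rcases le_or_gt e (4 / 3) with h | h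
  · exact lawLow_of_N (by linarith) hs (hL e he h)
  · intro ε hε
    refine ⟨1, one_pos, fun r0 hr0 => ⟨0, fun n _ => le_trans (le_of_eq (NTSF.law_zero fun s _ hcon => hcon ?_)) zero_le⟩⟩
    intro u v hu huv hv r hr hr1 F hF
    have hF1 : (1 : ℝ) ≤ F.card := by
      obtain ⟨z, hz, -⟩ := mem_iUnion₂.1 (hF ⟨u, ⟨le_rfl, huv⟩, rfl⟩)
      exact_mod_cast Finset.card_pos.2 ⟨z, hz⟩
    refine le_trans ?_ hF1
    have h1 : r ^ (-(4 / 3 - e)) ≤ 1 := Real.rpow_le_one (hr0.le.trans hr) hr1 (by linarith)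
    have h2 : 0 ≤ r ^ (-(4 / 3 - e)) := Real.rpow_nonneg (hr0.le.trans hr) _
    nlinarith

/-- the sizes tend to infinity -/
lemma size_tendsto {c C : ℝ} (hc : 0 < c) (h : ∀ n : ℕ, 1 ≤ n → c * (n : ℝ) ^ (3 / 4 : ℝ) ≤ size n ∧
    size n ≤ C * (n : ℝ) ^ (3 / 4 : ℝ)) : Tendsto size atTop atTop := by
  refine tendsto_atTop_mono' atTop ?_
    ((((tendsto_rpow_atTop (by norm_num : (0 : ℝ) < 3 / 4)).comp tendsto_natCast_atTop_atTop)).const_mul_atTop hc)
  filter_upwards [eventually_ge_atTop 1] with n hn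
  exact (h n hn).1

/-- **the statement of the hand-in** -/
theorem dim_result {b : Prop} (hE : NTSF.ConclE b) (hL : ∀ e : ℝ, 0 < e → e ≤ 4 / 3 → LawLowN (4 / 3 - e)) :
    (∀ e ε : ℝ, 0 < e → 0 < ε → ∃ c : ℝ, 0 < c ∧ ∀ n : ℕ, 1 ≤ n →
      law n {γ : C(unitInterval, ℂ) | ¬ Content γ e c (1 / size n)} ≤ ENNReal.ofReal ε) ∧
    (∀ φ : ℕ → ℕ, StrictMono φ → ∃ ψ : ℕ → ℕ, StrictMono ψ ∧ ∃ ν : Measure C(unitInterval, ℂ),
      IsProbabilityMeasure ν ∧ LawTo (fun k => φ (ψ k)) ν) ∧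
    ∀ (φ : ℕ → ℕ) (ν : Measure C(unitInterval, ℂ)), Tendsto φ atTop atTop → IsProbabilityMeasure ν → LawTo φ ν →
      ∀ᵐ γ : C(unitInterval, ℂ) ∂ν, (∀ e : ℝ, 0 < e → ∃ c : ℝ, 0 < c ∧ ∀ ρ : ℝ, 0 < ρ → Content γ e c ρ) ∧
        ∀ u v : unitInterval, u < v → dimH (γ '' Icc u v) = 4 / 3 := by
  obtain ⟨c, C, hc, h1, -, h3, -, h5, h6⟩ := hE
  have hs := size_tendsto hc h1
  refine ⟨contentN hL h3, h5, fun φ ν hφ hν hlim => ?_⟩
  filter_upwards [ae_dim hν hφ hlim (lawLow_all hs hL) (by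
    filter_upwards [(h6 φ ν hφ hν hlim).1] with γ hγ
    exact hγ.2.2)] with γ hγ
  exact ⟨limit_words hγ.1, hγ.2⟩

end DIM

end HexObs
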