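import Pool.Agent.DIM.FinN

/-!
# DIM/FinO: the statement of LimitDimension from the facts of the words (helper83)
-/

set_option autoImplicit false

namespace HexObs

namespace DIM

open MeasureTheory Set Metric Filter Topology

open HexObs.TS HexObs.SDN HexObs.NTW

open Pool.Agent.NTS.Res

open NC (nI)

open scoped ENNReal Classical

/-- **the lower covering bound of the curves X_n, all exponents** -/
theorem lawLowN_of {m : ℕ → ℝ} (hlo : ∃ c : ℝ, 0 < c ∧ ∀ k : ℕ, c * (2 : ℝ) ^ (4 / 3 * (k : ℝ)) ≤ m k)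
    (hup : ∃ C : ℝ, ∀ k : ℕ, m k ≤ C * (2 : ℝ) ^ (4 / 3 * (k : ℝ))) (hF : FactsX m)
    {b : Prop} (hE : NTSF.ConclE b)
    (hN : ∀ e ε : ℝ, 0 < e → 0 < ε → ∃ c : ℝ, 0 < c ∧ ∃ k0 : ℕ, ∀ k n : ℕ, k0 ≤ k →
      m k ≤ n → (n : ℝ) < m (k + 1) →
      gf {t | t ∈ SawN n ∧ ∃ x y j : ℕ, x < y ∧ y ≤ n ∧ j ≤ k ∧
        (nI (k - j) t x y : ℝ) < c * (((y : ℝ) - x) / n) * (2 : ℝ) ^ ((4 / 3 - e) * (j : ℝ))} ≤
        ENNReal.ofReal ε * nuX m k) :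
    ∀ e : ℝ, 0 < e → e ≤ 4 / 3 → LawLowN (4 / 3 - e) := by
  intro e he he1
  obtain ⟨R, κ, hS⟩ := NTSF.scaleX_exists hlo hup
  have hpos : ∀ k : ℕ, (0 : ℝ) < (2 : ℝ) ^ (4 / 3 * (k : ℝ)) := fun k => Real.rpow_pos_of_pos (by norm_num) _
  have hm : ∀ k, 0 < m k := fun k => by
    obtain ⟨c, hc, h⟩ := hlo
    exact lt_of_lt_of_le (mul_pos hc (hpos k)) (h k)
  have hd : ∃ C : ℝ, 1 ≤ C ∧ ∀ k, m (k + 1) ≤ C * m k := by
    obtain ⟨c, hc, h⟩ := hlo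
    obtain ⟨C, h'⟩ := hup
    have hC : 0 < C := by
      have h1 := (h 0).trans (h' 0)
      have h2 := hpos 0
      by_contra hcon
      push Not at hcon
      nlinarith
    refine ⟨max 1 (C * (2 : ℝ) ^ (4 / 3 : ℝ) / c), le_max_left _ _, fun k => ?_⟩
    have h1 : (2 : ℝ) ^ (4 / 3 * ((k + 1 : ℕ) : ℝ)) = (2 : ℝ) ^ (4 / 3 : ℝ) * (2 : ℝ) ^ (4 / 3 * (k : ℝ)) := by
      rw [← Real.rpow_add (by norm_num)]
      congr 1
      push_cast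
      ring
    calc m (k + 1) ≤ C * (2 : ℝ) ^ (4 / 3 * ((k + 1 : ℕ) : ℝ)) := h' (k + 1)
      _ = C * (2 : ℝ) ^ (4 / 3 : ℝ) / c * (c * (2 : ℝ) ^ (4 / 3 * (k : ℝ))) := by
          rw [h1]
          field_simp
      _ ≤ C * (2 : ℝ) ^ (4 / 3 : ℝ) / c * m k := mul_le_mul_of_nonneg_left (h k) (by positivity)
      _ ≤ _ := mul_le_mul_of_nonneg_right (le_max_right _ _) (hm k).le
  have hR1 : ∀ n, 1 ≤ R n := fun n => by
    rw [hS.R2]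
    exact one_le_pow₀ (by norm_num)
  obtain ⟨-, -, Cu, nu, hCu, hupR⟩ := NTSF.factsQ_of hR1 (NTSF.normX_of hS hF hd)
  obtain ⟨c0, n0, hc0, hnu⟩ := NTSF.nuX_le hS hF
  obtain ⟨c, C, hc, h1, -⟩ := hE
  refine lowN_core hS hc0 hnu hupR (by linarith) (by linarith) (C2 := C) (fun n hn => (h1 n hn).2) (fun eps heps => ?_)
  obtain ⟨c2, hc2, k0, h2⟩ := hN e eps he heps
  exact ⟨c2, k0, hc2, h2⟩

end DIM

end HexObs
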