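import Pool.Agent.DIM.Glue

/-!
DIM: no near double points in the laws of X_n: almost every curve of a weak limit is injective.
-/

set_option autoImplicit false

namespace HexObs

namespace DIM

open MeasureTheory Set Metric Filter Topology

open Pool.Agent.NTS.Res

open scoped ENNReal NNReal

/-- the curves that go to the distance > η and come back to a point at distance < δ of the point where they were -/
def NearD (η δ : ℝ) : Set C(unitInterval, ℂ) :=
  {γ | ∃ s w t : unitInterval, s ≤ w ∧ w ≤ t ∧ η < dist (γ w) (γ s) ∧ dist (γ s) (γ t) < δ}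

/-- near double points are unlikely, for the n of A -/
def LawSim (A : Set ℕ) : Prop := ∀ η ε : ℝ, 0 < η → 0 < ε → ∃ δ : ℝ, 0 < δ ∧ ∃ n0 : ℕ, ∀ n ∈ A, n0 ≤ n →
  law n (NearD η δ) ≤ ENNReal.ofReal ε

lemma nearD_open (η δ : ℝ) : IsOpen (NearD η δ) := by
  have h : NearD η δ = ⋃ (s : unitInterval) (w : unitInterval) (t : unitInterval) (_ : s ≤ w ∧ w ≤ t),
      {γ : C(unitInterval, ℂ) | η < dist (γ w) (γ s)} ∩ {γ : C(unitInterval, ℂ) | dist (γ s) (γ t) < δ} := by
    ext γ
    simp only [NearD, mem_ofPred_eq, mem_iUnion, mem_inter_iff, exists_prop]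
    constructor
    · rintro ⟨s, w, t, a, b, c, d⟩
      exact ⟨s, w, t, ⟨a, b⟩, c, d⟩
    · rintro ⟨s, w, t, ⟨a, b⟩, c, d⟩
      exact ⟨s, w, t, a, b, c, d⟩
  rw [h]
  refine isOpen_iUnion fun s => isOpen_iUnion fun w => isOpen_iUnion fun t => isOpen_iUnion fun _ => ?_
  exact (isOpen_lt continuous_const ((NTF.cont_eval w).dist (NTF.cont_eval s))).inter
    (isOpen_lt ((NTF.cont_eval s).dist (NTF.cont_eval t)) continuous_const)

/-- **no loops in the weak limits** -/
theorem sim_lim {A : Set ℕ} (h : LawSim A) {φ : ℕ → ℕ} {ν : Measure C(unitInterval, ℂ)} (hφ : Tendsto φ atTop atTop)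
    (hφA : ∀ k, φ k ∈ A) (hν : IsProbabilityMeasure ν) (hlim : LawTo φ ν) :
    ∀ᵐ γ : C(unitInterval, ℂ) ∂ν, ∀ s w t : unitInterval, s ≤ w → w ≤ t → γ s = γ t → γ w = γ s := by
  have hlim2 := (NTSF.lawTo_iff ⟨ν, hν⟩).1 hlim
  have hge : ∀ n0 : ℕ, ∀ᶠ k in atTop, n0 ≤ φ k := fun n0 => hφ.eventually_ge_atTop n0
  have h1 : ∀ k : ℕ, ∀ᵐ γ : C(unitInterval, ℂ) ∂ν, ∀ s w t : unitInterval, s ≤ w → w ≤ t → γ s = γ t →
      dist (γ w) (γ s) ≤ 1 / ((k : ℝ) + 1) := by
    intro k
    have h0 : ν {γ : C(unitInterval, ℂ) | ¬ ∀ s w t : unitInterval, s ≤ w → w ≤ t → γ s = γ t →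
        dist (γ w) (γ s) ≤ 1 / ((k : ℝ) + 1)} = 0 := by
      refine le_antisymm (ENNReal.le_of_forall_pos_le_add ?_) zero_le
      intro ε hε _
      rw [zero_add]
      obtain ⟨δ, hδ, n0, h2⟩ := h (1 / ((k : ℝ) + 1)) ε (by positivity) (by exact_mod_cast hε)
      have h3 := NTF.open_le hlim2 (nearD_open (1 / ((k : ℝ) + 1)) δ) (ε := ENNReal.ofReal ε) (by
        filter_upwards [hge n0] with j hj
        exact h2 _ (hφA j) hj)
      rw [ENNReal.ofReal_coe_nnreal] at h3
      refine (measure_mono ?_).trans h3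
      intro γ hγ
      have hγ' : ¬ ∀ s w t : unitInterval, s ≤ w → w ≤ t → γ s = γ t → dist (γ w) (γ s) ≤ 1 / ((k : ℝ) + 1) := hγ
      push Not at hγ'
      obtain ⟨s, w, t, a, b, c, d⟩ := hγ'
      exact ⟨s, w, t, a, b, d, by rw [c, dist_self]; exact hδ⟩
    exact h0
  filter_upwards [ae_all_iff.2 h1] with γ hγ s w t a b c
  have h2 : dist (γ w) (γ s) ≤ 0 := by
    refine le_of_forall_pos_le_add fun e he => ?_
    obtain ⟨k, hk⟩ := exists_nat_one_div_lt he
    have := hγ k s w t a b c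
    linarith
  exact dist_le_zero.1 h2

/-- **simple curves** -/
theorem injective_of {γ : C(unitInterval, ℂ)} (h : ∀ s w t : unitInterval, s ≤ w → w ≤ t → γ s = γ t → γ w = γ s)
    (hd : ∀ u v : unitInterval, u < v → dimH (γ '' Icc u v) = 4 / 3) : Function.Injective γ := by
  have key : ∀ s t : unitInterval, s < t → γ s ≠ γ t := by
    intro s t hst heq
    have h1 : γ '' Icc s t ⊆ {γ s} := by
      rintro _ ⟨w, hw, rfl⟩
      exact h s w t hw.1 hw.2 heq
    have h2 := dimH_mono h1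
    rw [hd s t hst, dimH_singleton] at h2
    norm_num at h2
  intro s t heq
  rcases lt_trichotomy s t with h1 | h1 | h1
  · exact absurd heq (key s t h1)
  · exact h1
  · exact absurd heq.symm (key t s h1)

end DIM

end HexObs
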