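import Pool.Agent.DIM.FinN
import Pool.Agent.DIM.Sim
import Pool.Agent.SIM.LawS

/-!
# DIM/FinS: the statement of LimitSimple from its inputs (helper62)

* **`simple_result`** : content of X_n for every n; limits exist along subsequences; every weak limit is almost surely a
  simple curve, with the content and the dimension `4/3` of every arc.
-/

set_option autoImplicit false

namespace HexObs

namespace DIM

open MeasureTheory Set Metric Filter Topology

open Pool.Agent.NTS.Res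

open Pool.Agent.DIM.Res (Content)

open scoped ENNReal Classical

/-- **the statement of the hand-in LimitSimple** -/
theorem simple_result {b : Prop} (hE : NTSF.ConclE b) (hL : ∀ e : ℝ, 0 < e → e ≤ 4 / 3 → LawLowN (4 / 3 - e))
    (hS : SIM.LawSim) :
    (∀ e ε : ℝ, 0 < e → 0 < ε → ∃ c : ℝ, 0 < c ∧ ∀ n : ℕ, 1 ≤ n →
      law n {γ : C(unitInterval, ℂ) | ¬ Content γ e c (1 / size n)} ≤ ENNReal.ofReal ε) ∧
    (∀ φ : ℕ → ℕ, StrictMono φ → ∃ ψ : ℕ → ℕ, StrictMono ψ ∧ ∃ ν : Measure C(unitInterval, ℂ),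
      IsProbabilityMeasure ν ∧ LawTo (fun k => φ (ψ k)) ν) ∧
    ∀ (φ : ℕ → ℕ) (ν : Measure C(unitInterval, ℂ)), Tendsto φ atTop atTop → IsProbabilityMeasure ν → LawTo φ ν →
      ∀ᵐ γ : C(unitInterval, ℂ) ∂ν, Function.Injective γ ∧
        (∀ e : ℝ, 0 < e → ∃ c : ℝ, 0 < c ∧ ∀ ρ : ℝ, 0 < ρ → Content γ e c ρ) ∧
        ∀ u v : unitInterval, u < v → dimH (γ '' Set.Icc u v) = 4 / 3 := by
  obtain ⟨h1, h2, h3⟩ := dim_result hE hL
  refine ⟨h1, h2, fun φ ν hφ hν hlim => ?_⟩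
  filter_upwards [h3 φ ν hφ hν hlim, SIM.pinch_lim hS hφ hν hlim] with γ hγ hp
  exact ⟨injective_of (fun s w t hsw hwt hst => hp s w t hsw hwt hst.symm) hγ.2, hγ⟩

end DIM

end HexObs
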