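import Pool.Agent.DIM.Lim
import Pool.Agent.DIM.Arc

/-!
DIM: a curve that is Hoelder continuous with all the exponents < 3/4 and has the lower covering bound with all the exponents
< 4/3 satisfies the two-sided inequality, all its arcs have the Hausdorff dimension 4/3.
-/

set_option autoImplicit false

namespace HexObs

namespace DIM

open MeasureTheory Set Metric Filter Topology

open Pool.Agent.NTS.Res

open scoped ENNReal NNReal

lemma LowC.anti {E : Type*} [MetricSpace E] {f : ℝ → E} {a c c' : ℝ} (h : LowC f a c) (hc : c' ≤ c) :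
    LowC f a c' := by
  intro u v h0 huv hv r hr hr1 F hF
  refine le_trans ?_ (h u v h0 huv hv r hr hr1 F hF)
  have h1 : 0 < r ^ (-a) := Real.rpow_pos_of_pos hr _
  have h2 : 0 ≤ v - u := by linarith
  gcongr

lemma UpC.anti {E : Type*} [MetricSpace E] {f : ℝ → E} {a c c' : ℝ} (h : UpC f a c) (h0 : 0 < c') (hc : c' ≤ c) :
    UpC f a c' := by
  intro u v hu huv hv r hr hr1
  obtain ⟨F, hF, hFc⟩ := h u v hu huv hv r hr hr1
  refine ⟨F, hF, hFc.trans ?_⟩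
  have h1 : 0 < r ^ (-a) := Real.rpow_pos_of_pos hr _
  have h2 : 0 ≤ v - u := by linarith
  gcongr

/-- the Hoelder modulus on the line -/
lemma crv_holder {γ : C(unitInterval, ℂ)} {M b : ℝ≥0} (h : HolderWith M b γ) : ∀ u v : ℝ, 0 ≤ u → u ≤ v → v ≤ 1 →
    dist (crv γ u) (crv γ v) ≤ M * (v - u) ^ (b : ℝ) := by
  intro u v h0 huv hv
  have hu1 : u ≤ 1 := huv.trans hv
  have hv0 : 0 ≤ v := h0.trans huv
  rw [crv_of h0 hu1, crv_of hv0 hv]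
  have h1 := h.dist_le ⟨u, h0, hu1⟩ ⟨v, hv0, hv⟩
  have h2 : dist (⟨u, h0, hu1⟩ : unitInterval) ⟨v, hv0, hv⟩ = v - u := by
    rw [Subtype.dist_eq, Real.dist_eq, abs_sub_comm, abs_of_nonneg (by linarith : 0 ≤ v - u)]
  rwa [h2] at h1

/-- **the two-sided inequality** -/
theorem natC_crv {γ : C(unitInterval, ℂ)} (hH : ∀ a : ℝ≥0, (a : ℝ) < 3 / 4 → ∃ M : ℝ≥0, HolderWith M a γ)
    (hL : ∀ e : ℝ, 0 < e → ∃ c : ℝ, 0 < c ∧ LowC (crv γ) (4 / 3 - e) c) : NatC (crv γ) (4 / 3) := by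
  intro e he
  obtain ⟨c1, hc1, h1⟩ := hL e he
  have hpos : (0 : ℝ) < 1 / (4 / 3 + e) := by positivity
  have hlt : 1 / (4 / 3 + e) < 3 / 4 := by
    rw [div_lt_iff₀ (by positivity)]
    linarith
  obtain ⟨b, hb⟩ : ∃ b : ℝ≥0, (b : ℝ) = 1 / (4 / 3 + e) := ⟨⟨1 / (4 / 3 + e), hpos.le⟩, rfl⟩
  obtain ⟨M, hM⟩ := hH b (by rw [hb]; exact hlt)
  obtain ⟨c2, hc2, h2⟩ := upC_of_holder (f := crv γ) (M := M) (b := b) (a := 4 / 3 + e) M.2 (by rw [hb]; exact hpos)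
    (by rw [hb]; simp) (crv_holder hM)
  exact ⟨min c1 c2, lt_min hc1 hc2, h1.anti (min_le_left _ _), h2.anti (lt_min hc1 hc2) (min_le_right _ _)⟩

lemma crv_image (γ : C(unitInterval, ℂ)) (u v : unitInterval) : crv γ '' Icc (u : ℝ) v = γ '' Icc u v := by
  ext z
  constructor
  · rintro ⟨t, ht, rfl⟩
    have h0 : 0 ≤ t := u.2.1.trans ht.1
    have h1 : t ≤ 1 := ht.2.trans v.2.2
    rw [crv_of h0 h1]
    exact ⟨⟨t, h0, h1⟩, ⟨ht.1, ht.2⟩, rfl⟩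
  · rintro ⟨t, ht, rfl⟩
    exact ⟨t, ⟨ht.1, ht.2⟩, by rw [crv_of t.2.1 t.2.2]⟩

/-- **every arc has the dimension D** -/
theorem dim_arcI {γ : C(unitInterval, ℂ)} {D : ℝ} (hD : 0 < D) (h : NatC (crv γ) D) (u v : unitInterval) (huv : u < v) :
    dimH (γ '' Icc u v) = ENNReal.ofReal D := by
  rw [← crv_image]
  exact dim_arc (crv_continuous γ).continuousOn hD h u.2.1 huv v.2.2

/-- **the conclusion for one curve** -/
theorem dim_43 {γ : C(unitInterval, ℂ)} (hH : ∀ a : ℝ≥0, (a : ℝ) < 3 / 4 → ∃ M : ℝ≥0, HolderWith M a γ)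
    (hL : ∀ e : ℝ, 0 < e → ∃ c : ℝ, 0 < c ∧ LowC (crv γ) (4 / 3 - e) c) (u v : unitInterval) (huv : u < v) :
    dimH (γ '' Icc u v) = 4 / 3 := by
  rw [dim_arcI (by norm_num) (natC_crv hH hL) u v huv]
  rw [ENNReal.ofReal_div_of_pos (by norm_num)]
  norm_num

/-- from the exponents 4 / 3 - 1 / (j + 1) to all the exponents -/
lemma lowC_all {γ : C(unitInterval, ℂ)} (h : ∀ j : ℕ, ∃ c : ℝ, 0 < c ∧ LowC (crv γ) (4 / 3 - 1 / ((j : ℝ) + 1)) c) (e : ℝ)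
    (he : 0 < e) : ∃ c : ℝ, 0 < c ∧ LowC (crv γ) (4 / 3 - e) c := by
  obtain ⟨j, hj⟩ := exists_nat_one_div_lt he
  obtain ⟨c, hc, h1⟩ := h j
  refine ⟨c, hc, fun u v h0 huv hv r hr hr1 F hF => ?_⟩
  refine le_trans ?_ (h1 u v h0 huv hv r hr hr1 F hF)
  have h2 : r ^ (-(4 / 3 - e)) ≤ r ^ (-(4 / 3 - 1 / ((j : ℝ) + 1))) :=
    Real.rpow_le_rpow_of_exponent_ge hr hr1 (by linarith)
  have h3 : 0 ≤ v - u := by linarith
  gcongr

/-- **almost every curve of a weak limit** -/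
theorem ae_dim {ν : Measure C(unitInterval, ℂ)} (hν : IsProbabilityMeasure ν) {φ : ℕ → ℕ} (hφ : Tendsto φ atTop atTop)
    (hlim : LawTo φ ν) (hL : ∀ e : ℝ, 0 < e → LawLow (4 / 3 - e))
    (hH : ∀ᵐ γ : C(unitInterval, ℂ) ∂ν, ∀ a : ℝ≥0, (a : ℝ) < 3 / 4 → ∃ M : ℝ≥0, HolderWith M a γ) :
    ∀ᵐ γ : C(unitInterval, ℂ) ∂ν, NatC (crv γ) (4 / 3) ∧ ∀ u v : unitInterval, u < v → dimH (γ '' Icc u v) = 4 / 3 := by
  have h1 : ∀ᵐ γ : C(unitInterval, ℂ) ∂ν, ∀ j : ℕ, ∃ c : ℝ, 0 < c ∧ LowC (crv γ) (4 / 3 - 1 / ((j : ℝ) + 1)) c :=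
    ae_all_iff.2 fun j => low_lim (hL _ (by positivity)) hφ hν hlim
  filter_upwards [h1, hH] with γ a b
  exact ⟨natC_crv b (lowC_all a), dim_43 b (lowC_all a)⟩

end DIM

end HexObs
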