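import Pool.Agent.DIM.Nat
import Pool.Agent.NTS.ResDefs

/-!
# DIM/LawDefs: the lower covering bound of the curves X_n, law side (helper83)

* `crv γ`: the curve on the line;
* `LowR f a c r0`: the arcs cannot be covered by few balls of radius at least `r0`;
* `LawLow a`: for every `ε` one constant `c` such that for every `r0 > 0` and all large `n` the law of `X_n` gives at least
  `1 - ε` to `LowR · a c r0`;
* `LawLowN a`: the same for `X_n` with all the radii from the step length on.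
-/

set_option autoImplicit false

namespace HexObs

namespace DIM

open MeasureTheory Set Metric Filter Topology

open Pool.Agent.NTS.Res

open scoped ENNReal

/-- the curve as a function on the line -/
noncomputable def crv (γ : C(unitInterval, ℂ)) : ℝ → ℂ := fun t => γ (Set.projIcc 0 1 zero_le_one t)

/-- the arcs cannot be covered by few balls of radius at least `r0` -/
def LowR (f : ℝ → ℂ) (a c r0 : ℝ) : Prop := ∀ u v : ℝ, 0 ≤ u → u ≤ v → v ≤ 1 → ∀ r : ℝ, r0 ≤ r → r ≤ 1 →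
  ∀ F : Finset ℂ, f '' Icc u v ⊆ ⋃ z ∈ F, closedBall z r → c * (v - u) * r ^ (-a) ≤ F.card

/-- the lower bound for the laws of `X_n` -/
def LawLow (a : ℝ) : Prop := ∀ ε : ℝ, 0 < ε → ∃ c : ℝ, 0 < c ∧ ∀ r0 : ℝ, 0 < r0 → ∃ n0 : ℕ, ∀ n : ℕ, n0 ≤ n →
  law n {γ : C(unitInterval, ℂ) | ¬ LowR (crv γ) a c r0} ≤ ENNReal.ofReal ε

/-- the lower bound for the curves `X_n` down to the step length -/
def LawLowN (a : ℝ) : Prop := ∀ ε : ℝ, 0 < ε → ∃ c : ℝ, 0 < c ∧ ∃ n0 : ℕ, ∀ n : ℕ, n0 ≤ n →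
  law n {γ : C(unitInterval, ℂ) | ¬ LowR (crv γ) a c (1 / size n)} ≤ ENNReal.ofReal ε

lemma crv_continuous (γ : C(unitInterval, ℂ)) : Continuous (crv γ) :=
  γ.continuous.comp continuous_projIcc

lemma crv_of {γ : C(unitInterval, ℂ)} {t : ℝ} (h0 : 0 ≤ t) (h1 : t ≤ 1) : crv γ t = γ ⟨t, h0, h1⟩ := by
  unfold crv
  rw [projIcc_of_mem zero_le_one ⟨h0, h1⟩]

lemma LowR.anti {f : ℝ → ℂ} {a c r0 c' r0' : ℝ} (h : LowR f a c r0) (hc : c' ≤ c) (hr : r0 ≤ r0') (h0 : 0 < r0') :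
    LowR f a c' r0' := by
  intro u v hu huv hv r hr0 hr1 F hF
  refine le_trans ?_ (h u v hu huv hv r (hr.trans hr0) hr1 F hF)
  have h1 : 0 < r ^ (-a) := Real.rpow_pos_of_pos (h0.trans_le hr0) _
  have h2 : 0 ≤ v - u := by linarith
  gcongr

end DIM

end HexObs
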