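import Pool.Agent.DIM.LawDefs
import Pool.Agent.NTS.Law

/-!
DIM: the lower covering bound passes to the weak limits.
-/

set_option autoImplicit false

namespace HexObs

namespace DIM

open MeasureTheory Set Metric Filter Topology

open Pool.Agent.NTS.Res

open scoped ENNReal

/-- the curves with an arc covered by few open balls of radius at least r0 -/
def BadO (a c r0 : ℝ) : Set C(unitInterval, ℂ) :=
  {γ | ∃ u v : ℝ, 0 ≤ u ∧ u ≤ v ∧ v ≤ 1 ∧ ∃ r : ℝ, r0 ≤ r ∧ r ≤ 1 ∧ ∃ F : Finset ℂ,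
    crv γ '' Icc u v ⊆ ⋃ z ∈ F, ball z r ∧ (F.card : ℝ) < c * (v - u) * r ^ (-a)}

lemma badO_open (a c r0 : ℝ) : IsOpen (BadO a c r0) := by
  rw [Metric.isOpen_iff]
  rintro γ ⟨u, v, h0, huv, hv, r, hr0, hr1, F, hF, hc⟩
  have hK : IsCompact (crv γ '' Icc u v) := isCompact_Icc.image (crv_continuous γ)
  have hU : IsOpen (⋃ z ∈ F, ball z r : Set ℂ) := isOpen_biUnion fun z _ => isOpen_ball
  obtain ⟨δ, hδ, hsub⟩ := hK.exists_thickening_subset_open hU hF
  refine ⟨δ, hδ, fun γ' hγ' => ⟨u, v, h0, huv, hv, r, hr0, hr1, F, ?_, hc⟩⟩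
  rintro _ ⟨t, ht, rfl⟩
  refine hsub (mem_thickening_iff.2 ⟨crv γ t, ⟨t, ht, rfl⟩, ?_⟩)
  have h1 : dist (γ' (projIcc 0 1 zero_le_one t)) (γ (projIcc 0 1 zero_le_one t)) ≤ dist γ' γ :=
    ContinuousMap.dist_apply_le_dist _
  exact h1.trans_lt hγ'

lemma badO_sub (a c r0 : ℝ) : BadO a c r0 ⊆ {γ | ¬ LowR (crv γ) a c r0} := by
  rintro γ ⟨u, v, h0, huv, hv, r, hr0, hr1, F, hF, hc⟩ h
  have := h u v h0 huv hv r hr0 hr1 F (hF.trans (iUnion₂_mono fun z _ => ball_subset_closedBall))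
  linarith

lemma badO_mono {a c r0 r1 : ℝ} (h : r1 ≤ r0) : BadO a c r0 ⊆ BadO a c r1 := by
  rintro γ ⟨u, v, h0, huv, hv, r, hr0, hr1, F, hF, hc⟩
  exact ⟨u, v, h0, huv, hv, r, h.trans hr0, hr1, F, hF, hc⟩

/-- no bad arc at any radius: the lower bound with closed balls -/
lemma lowC_of {a c : ℝ} (hc : 0 < c) {γ : C(unitInterval, ℂ)} (h : ∀ k : ℕ, γ ∉ BadO a c (1 / ((k : ℝ) + 1))) :
    LowC (crv γ) a (min c 1 * 2 ^ (-|a|)) := by
  intro u v h0 huv hv r hr hr1 F hF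
  have h2a : (0 : ℝ) < 2 ^ (-|a|) := by positivity
  have hcm : 0 < min c 1 := lt_min hc one_pos
  have hvu : 0 ≤ v - u := by linarith
  have hra : 0 < r ^ (-a) := by positivity
  rcases le_or_gt r (1 / 2) with hr2 | hr2
  · obtain ⟨k, hk⟩ := exists_nat_one_div_lt (show 0 < 2 * r by positivity)
    by_contra hlt
    push Not at hlt
    refine h k ⟨u, v, h0, huv, hv, 2 * r, hk.le, by linarith, F, ?_, ?_⟩
    · refine hF.trans (iUnion₂_mono fun z _ => closedBall_subset_ball (by linarith))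
    · refine hlt.trans_le ?_
      have h1 : (2 * r) ^ (-a) = 2 ^ (-a) * r ^ (-a) := Real.mul_rpow (by norm_num) hr.le
      have h2 : (2 : ℝ) ^ (-|a|) ≤ 2 ^ (-a) := Real.rpow_le_rpow_of_exponent_le (by norm_num) (by
        have := le_abs_self a
        linarith)
      rw [h1]
      have h3 : min c 1 * 2 ^ (-|a|) ≤ c * 2 ^ (-a) := mul_le_mul (min_le_left _ _) h2 h2a.le hc.le
      calc min c 1 * 2 ^ (-|a|) * (v - u) * r ^ (-a) ≤ c * 2 ^ (-a) * (v - u) * r ^ (-a) := by gcongr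
        _ = c * (v - u) * (2 ^ (-a) * r ^ (-a)) := by ring
  · have hne : F.Nonempty := by
      by_contra hemp
      rw [Finset.not_nonempty_iff_eq_empty] at hemp
      have h1 : crv γ u ∈ crv γ '' Icc u v := ⟨u, ⟨le_rfl, huv⟩, rfl⟩
      have h2 := hF h1
      rw [hemp] at h2
      simp at h2
    have h1 : (1 : ℝ) ≤ F.card := by exact_mod_cast hne.card_pos
    refine le_trans ?_ h1
    have h2 : r ^ (-a) ≤ 2 ^ |a| := by
      rcases le_or_gt 0 a with ha | ha
      · rw [abs_of_nonneg ha, Real.rpow_neg hr.le, ← Real.inv_rpow hr.le]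
        refine Real.rpow_le_rpow (by positivity) ?_ ha
        rw [inv_le_comm₀ hr (by norm_num)]
        linarith
      · calc r ^ (-a) ≤ 1 := Real.rpow_le_one hr.le hr1 (by linarith)
          _ ≤ 2 ^ |a| := Real.one_le_rpow (by norm_num) (abs_nonneg a)
    have h3 : (2 : ℝ) ^ (-|a|) * 2 ^ |a| = 1 := by
      rw [← Real.rpow_add (by norm_num), neg_add_cancel, Real.rpow_zero]
    calc min c 1 * 2 ^ (-|a|) * (v - u) * r ^ (-a) ≤ 1 * 2 ^ (-|a|) * 1 * 2 ^ |a| := by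
          gcongr
          · exact min_le_right _ _
          · linarith
      _ = 1 := by rw [one_mul, mul_one, h3]

/-- **the lower covering bound in the weak limits** -/
theorem low_lim {a : ℝ} (h : LawLow a) {φ : ℕ → ℕ} {ν : Measure C(unitInterval, ℂ)} (hφ : Tendsto φ atTop atTop)
    (hν : IsProbabilityMeasure ν) (hlim : LawTo φ ν) : ∀ᵐ γ : C(unitInterval, ℂ) ∂ν, ∃ c : ℝ, 0 < c ∧ LowC (crv γ) a c := by
  have hlim2 := (NTSF.lawTo_iff ⟨ν, hν⟩).1 hlim
  have hge : ∀ n0 : ℕ, ∀ᶠ k in atTop, n0 ≤ φ k := fun n0 => hφ.eventually_ge_atTop n0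
  have h0 : ν {γ : C(unitInterval, ℂ) | ¬ ∃ c : ℝ, 0 < c ∧ LowC (crv γ) a c} = 0 := by
    refine le_antisymm (ENNReal.le_of_forall_pos_le_add ?_) zero_le
    intro ε hε _
    rw [zero_add]
    obtain ⟨c, hc, h1⟩ := h ε (by exact_mod_cast hε)
    have h2 : ∀ k : ℕ, ν (BadO a c (1 / ((k : ℝ) + 1))) ≤ ε := by
      intro k
      obtain ⟨n0, h3⟩ := h1 (1 / ((k : ℝ) + 1)) (by positivity)
      have h4 := NTF.open_le hlim2 (badO_open a c (1 / ((k : ℝ) + 1))) (ε := ENNReal.ofReal ε) (by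
        filter_upwards [hge n0] with j hj
        exact (measure_mono (badO_sub a c _)).trans (h3 _ hj))
      rwa [ENNReal.ofReal_coe_nnreal] at h4
    have h5 : {γ : C(unitInterval, ℂ) | ¬ ∃ c : ℝ, 0 < c ∧ LowC (crv γ) a c} ⊆ ⋃ k : ℕ, BadO a c (1 / ((k : ℝ) + 1)) := by
      intro γ hγ
      by_contra hcon
      rw [mem_iUnion] at hcon
      push Not at hcon
      exact hγ ⟨_, mul_pos (lt_min hc one_pos) (by positivity), lowC_of hc hcon⟩
    have hmono : Monotone fun k : ℕ => BadO a c (1 / ((k : ℝ) + 1)) := by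
      intro i j hij
      refine badO_mono ?_
      have : (i : ℝ) ≤ j := by exact_mod_cast hij
      exact one_div_le_one_div_of_le (by positivity) (by linarith)
    refine (measure_mono h5).trans ?_
    rw [hmono.measure_iUnion]
    exact iSup_le h2
  exact h0

/-- **covering numbers from above** -/
theorem upC_of_holder {E : Type*} [MetricSpace E] {f : ℝ → E} {M b a : ℝ} (hM : 0 ≤ M) (hb : 0 < b) (hab : 1 / b ≤ a)
    (hf : ∀ u v : ℝ, 0 ≤ u → u ≤ v → v ≤ 1 → dist (f u) (f v) ≤ M * (v - u) ^ b) :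
    ∃ c : ℝ, 0 < c ∧ UpC f a c := by
  obtain ⟨L, hL⟩ : ∃ L : ℝ, L = M + 1 := ⟨_, rfl⟩
  have hL0 : 0 < L := by rw [hL]; linarith
  have hLb : 0 < L ^ (1 / b) := by positivity
  refine ⟨(L ^ (1 / b))⁻¹, by positivity, fun u v h0 huv hv r hr hr1 => ?_⟩
  -- the length of the small intervals
  obtain ⟨d, hd⟩ : ∃ d : ℝ, d = (r / L) ^ (1 / b) := ⟨_, rfl⟩
  have hd0 : 0 < d := by rw [hd]; positivity
  have hdb : L * d ^ b = r := by
    rw [hd, ← Real.rpow_mul (by positivity), one_div, inv_mul_cancel₀ hb.ne', Real.rpow_one]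
    field_simp
  obtain ⟨n, hn⟩ : ∃ n : ℕ, n = ⌊(v - u) / d⌋₊ := ⟨_, rfl⟩
  have hvu : 0 ≤ v - u := by linarith
  classical
  refine ⟨(Finset.range (n + 1)).image fun i : ℕ => f (u + i * d), ?_, ?_⟩
  · rintro _ ⟨t, ht, rfl⟩
    obtain ⟨i, hi⟩ : ∃ i : ℕ, i = ⌊(t - u) / d⌋₊ := ⟨_, rfl⟩
    have htu : 0 ≤ t - u := by linarith [ht.1]
    have h1 : (i : ℝ) ≤ (t - u) / d := by rw [hi]; exact Nat.floor_le (by positivity)
    have h2 : (t - u) / d < i + 1 := by rw [hi]; exact Nat.lt_floor_add_one _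
    rw [le_div_iff₀ hd0] at h1
    rw [div_lt_iff₀ hd0] at h2
    have hin : i ≤ n := by
      rw [hi, hn]
      exact Nat.floor_le_floor (div_le_div_of_nonneg_right (by linarith [ht.2]) hd0.le)
    refine mem_iUnion₂.2 ⟨f (u + i * d), Finset.mem_image.2 ⟨i, Finset.mem_range.2 (by omega), rfl⟩, ?_⟩
    rw [mem_closedBall, dist_comm]
    refine (hf _ _ (by positivity) (by linarith) (ht.2.trans hv)).trans ?_
    have h3 : t - (u + i * d) ≤ d := by linarith
    have h4 : (t - (u + i * d)) ^ b ≤ d ^ b := Real.rpow_le_rpow (by linarith) h3 hb.le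
    have h5 : 0 ≤ d ^ b := by positivity
    calc M * (t - (u + i * d)) ^ b ≤ M * d ^ b := mul_le_mul_of_nonneg_left h4 hM
      _ ≤ L * d ^ b := mul_le_mul_of_nonneg_right (by rw [hL]; linarith) h5
      _ = r := hdb
  · have h1 : (((Finset.range (n + 1)).image fun i : ℕ => f (u + i * d)).card : ℝ) ≤ n + 1 := by
      have := Finset.card_image_le (s := Finset.range (n + 1)) (f := fun i : ℕ => f (u + i * d))
      rw [Finset.card_range] at this
      exact_mod_cast this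
    refine h1.trans ?_
    have h2 : (n : ℝ) ≤ (v - u) / d := by rw [hn]; exact Nat.floor_le (by positivity)
    have h3 : (v - u) / d ≤ (v - u) * r ^ (-a) / (L ^ (1 / b))⁻¹ := by
      have e1 : (v - u) / d = (v - u) * (r ^ (-(1 / b)) * L ^ (1 / b)) := by
        rw [hd, Real.div_rpow hr.le hL0.le, Real.rpow_neg hr.le]
        field_simp
      have e2 : (v - u) * r ^ (-a) / (L ^ (1 / b))⁻¹ = (v - u) * (r ^ (-a) * L ^ (1 / b)) := by
        rw [div_inv_eq_mul]
        ring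
      rw [e1, e2]
      have h4 : r ^ (-(1 / b)) ≤ r ^ (-a) := Real.rpow_le_rpow_of_exponent_ge hr hr1 (by linarith)
      gcongr
    linarith

end DIM

end HexObs
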