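import Pool.Agent.DIM.Curve
import Mathlib.Topology.MetricSpace.HausdorffDimension
import Mathlib.Analysis.SpecialFunctions.Pow.Asymptotics

/-!
DIM: the two sided inequality between the time and the covering numbers of all the arcs gives the Hausdorff dimension of
all the arcs.
-/

set_option autoImplicit false

namespace HexObs

namespace DIM

open MeasureTheory Set Metric

open scoped ENNReal NNReal

variable {E : Type*} [MetricSpace E]

/-- the arcs cannot be covered by few balls -/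
def LowC (f : ℝ → E) (a c : ℝ) : Prop := ∀ u v : ℝ, 0 ≤ u → u ≤ v → v ≤ 1 → ∀ r : ℝ, 0 < r → r ≤ 1 →
  ∀ F : Finset E, f '' Icc u v ⊆ ⋃ z ∈ F, closedBall z r → c * (v - u) * r ^ (-a) ≤ F.card

/-- the arcs can be covered by a number of balls proportional to the time -/
def UpC (f : ℝ → E) (a c : ℝ) : Prop := ∀ u v : ℝ, 0 ≤ u → u ≤ v → v ≤ 1 → ∀ r : ℝ, 0 < r → r ≤ 1 →
  ∃ F : Finset E, f '' Icc u v ⊆ ⋃ z ∈ F, closedBall z r ∧ (F.card : ℝ) ≤ 1 + (v - u) * r ^ (-a) / c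

/-- the time is a D-dimensional content -/
def NatC (f : ℝ → E) (D : ℝ) : Prop := ∀ e : ℝ, 0 < e → ∃ c : ℝ, 0 < c ∧ LowC f (D - e) c ∧ UpC f (D + e) c

/-- two balls -/
lemma two_balls {f : ℝ → E} {u v r : ℝ} (huv : u ≤ v) (hf : ContinuousOn f (Icc u v)) (hr : 0 ≤ r) {F : Finset E}
    (hF : F.card ≤ 2) (hc : f '' Icc u v ⊆ ⋃ z ∈ F, closedBall z r) : dist (f u) (f v) ≤ 4 * r := by
  have hu : f u ∈ f '' Icc u v := ⟨u, ⟨le_rfl, huv⟩, rfl⟩
  have hv : f v ∈ f '' Icc u v := ⟨v, ⟨huv, le_rfl⟩, rfl⟩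
  obtain ⟨a, haF, ha⟩ := mem_iUnion₂.1 (hc hu)
  obtain ⟨b, hbF, hb⟩ := mem_iUnion₂.1 (hc hv)
  rw [mem_closedBall] at ha hb
  by_cases hab : a = b
  · have := dist_triangle_right (f u) (f v) b
    rw [hab] at ha
    linarith
  · have hF2 : ∀ z ∈ F, z = a ∨ z = b := by
      classical
      intro z hz
      by_contra h
      push Not at h
      have h3 : ({z, a, b} : Finset E) ⊆ F := by
        intro w hw
        simp only [Finset.mem_insert, Finset.mem_singleton] at hw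
        rcases hw with rfl | rfl | rfl
        · exact hz
        · exact haF
        · exact hbF
      have h4 := Finset.card_le_card h3
      rw [Finset.card_eq_three.2 ⟨z, a, b, h.1, h.2, hab, rfl⟩] at h4
      omega
    have hpre : IsPreconnected (f '' Icc u v) := isPreconnected_Icc.image f hf
    rw [isPreconnected_closed_iff] at hpre
    obtain ⟨x, hx, hxa, hxb⟩ := hpre (closedBall a r) (closedBall b r) isClosed_closedBall isClosed_closedBall
      (fun y hy => by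
        obtain ⟨z, hzF, hz⟩ := mem_iUnion₂.1 (hc hy)
        rcases hF2 z hzF with rfl | rfl
        · exact Or.inl hz
        · exact Or.inr hz) ⟨f u, hu, mem_closedBall.2 ha⟩ ⟨f v, hv, mem_closedBall.2 hb⟩
    rw [mem_closedBall] at hxa hxb
    have h1 := dist_triangle4 (f u) a x b
    have h2 := dist_triangle (f u) b (f v)
    rw [dist_comm a x] at h1
    rw [dist_comm b (f v)] at h2
    linarith

/-- the modulus of continuity -/
theorem holder_of {f : ℝ → E} (hf : ContinuousOn f (Icc 0 1)) {a c : ℝ} (ha : 0 < a) (hc : 0 < c) (h : UpC f a c) :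
    ∃ M : ℝ, 0 < M ∧ ∀ u v : ℝ, 0 ≤ u → u ≤ v → v ≤ 1 → dist (f u) (f v) ≤ M * (v - u) ^ (1 / a) := by
  obtain ⟨B, hB⟩ := Metric.isBounded_iff.1 (isCompact_Icc.image_of_continuousOn hf).isBounded
  have hc1 : 0 < c ^ (1 / a) := by positivity
  refine ⟨(4 + |B|) / c ^ (1 / a), by positivity, fun u v h0 huv hv => ?_⟩
  have hmem : ∀ x ∈ Icc u v, f x ∈ f '' Icc 0 1 := fun x hx => ⟨x, ⟨h0.trans hx.1, hx.2.trans hv⟩, rfl⟩
  rcases huv.eq_or_lt with he | hlt
  · rw [he, dist_self, sub_self]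
    positivity
  have hd : 0 < v - u := by linarith
  obtain ⟨r, hr⟩ : ∃ r, r = ((v - u) / c) ^ (1 / a) := ⟨_, rfl⟩
  have hr0 : 0 < r := by rw [hr]; positivity
  have hre : (v - u) ^ (1 / a) / c ^ (1 / a) = r := by rw [hr, Real.div_rpow hd.le hc.le]
  have hgoal : (4 + |B|) / c ^ (1 / a) * (v - u) ^ (1 / a) = (4 + |B|) * r := by
    rw [← hre]
    ring
  rw [hgoal]
  rcases le_or_gt r 1 with hr1 | hr1
  · obtain ⟨F, hF, hFc⟩ := h u v h0 huv hv r hr0 hr1
    have h2 : (v - u) * r ^ (-a) / c = 1 := by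
      have : r ^ (-a) = ((v - u) / c)⁻¹ := by
        rw [hr, ← Real.rpow_mul (by positivity)]
        rw [show 1 / a * -a = -1 by field_simp, Real.rpow_neg_one]
      rw [this]
      field_simp
    have h3 : F.card ≤ 2 := by
      have : (F.card : ℝ) ≤ 2 := by linarith
      exact_mod_cast this
    have h4 := two_balls huv (hf.mono (Icc_subset_Icc h0 hv)) hr0.le h3 hF
    nlinarith [abs_nonneg B]
  · have h5 := hB (hmem u ⟨le_rfl, huv⟩) (hmem v ⟨huv, le_rfl⟩)
    have h6 := le_abs_self B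
    nlinarith [abs_nonneg B]

/-- **the lower bound of the dimension** -/
theorem dim_low {f : ℝ → E} (hf : ContinuousOn f (Icc 0 1)) {D : ℝ} (hD : 0 < D)
    (hU : ∀ e : ℝ, 0 < e → ∃ M : ℝ, 0 < M ∧ ∀ u v : ℝ, 0 ≤ u → u ≤ v → v ≤ 1 →
      dist (f u) (f v) ≤ M * (v - u) ^ (1 / (D + e)))
    (hL : ∀ e : ℝ, 0 < e → ∃ c : ℝ, 0 < c ∧ LowC f (D - e) c) {s : ℝ≥0} (hs : (s : ℝ) < D) :
    (s : ℝ≥0∞) ≤ dimH (f '' Icc 0 1) := by
  have hs0 : (0 : ℝ) ≤ s := s.2
  -- the exponents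
  obtain ⟨η, hη⟩ : ∃ η : ℝ, η = (D - s) / (2 * D) := ⟨_, rfl⟩
  have hη0 : 0 < η := by rw [hη]; exact div_pos (by linarith) (by linarith)
  have hηD : (1 + η) * s < D := by
    have h1 : η * s ≤ (D - s) / 2 := by
      rw [hη, div_mul_eq_mul_div, div_le_div_iff₀ (by positivity) (by norm_num)]
      nlinarith
    linarith
  obtain ⟨w, hw⟩ : ∃ w, w = D - (1 + η) * s := ⟨_, rfl⟩
  have hw0 : 0 < w := by rw [hw]; linarith
  obtain ⟨e, he⟩ : ∃ e, e = min (η * w / (2 * (2 + η))) (D / 2) := ⟨_, rfl⟩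
  have he0 : 0 < e := by rw [he]; exact lt_min (by positivity) (by positivity)
  have he1 : e * (2 + η) ≤ η * w / 2 := by
    have h1 : e ≤ η * w / (2 * (2 + η)) := by rw [he]; exact min_le_left _ _
    calc e * (2 + η) ≤ η * w / (2 * (2 + η)) * (2 + η) := mul_le_mul_of_nonneg_right h1 (by linarith)
      _ = η * w / 2 := by field_simp
  have he2 : e ≤ D / 2 := by rw [he]; exact min_le_right _ _
  obtain ⟨M, hM, hmod⟩ := hU e he0
  obtain ⟨c, hc, hlow⟩ := hL e he0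
  have ha : 0 < D + e := by linarith
  have hb : 0 < D - e := by linarith
  -- the time of a piece
  have htime : ∀ u v R : ℝ, 0 ≤ u → u ≤ v → v ≤ 1 → 0 < R → R ≤ dist (f u) (f v) → (R / M) ^ (D + e) ≤ v - u := by
    intro u v R h0 huv hv hR h
    have h1 := hmod u v h0 huv hv
    have h2 : R / M ≤ (v - u) ^ (1 / (D + e)) := by
      rw [div_le_iff₀ hM]
      linarith
    calc (R / M) ^ (D + e) ≤ ((v - u) ^ (1 / (D + e))) ^ (D + e) := Real.rpow_le_rpow (by positivity) h2 ha.le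
      _ = v - u := by
        rw [← Real.rpow_mul (by linarith), one_div, inv_mul_cancel₀ ha.ne', Real.rpow_one]
  -- the constant
  obtain ⟨c2, hc2⟩ : ∃ c2, c2 = c * (1 / M) ^ (D + e) * (4 : ℝ) ^ (-(D - e)) := ⟨_, rfl⟩
  have hc20 : 0 < c2 := by rw [hc2]; positivity
  -- the root
  have hroot : ∃ v : ℝ, 0 ≤ v ∧ v ≤ 1 ∧ 0 < dist (f 0) (f v) := by
    by_contra h
    push Not at h
    obtain ⟨k, hk⟩ : ∃ k : ℕ, 1 < c * ((1 / 2 : ℝ) ^ k) ^ (-(D - e)) := by
      have h1 : (1 : ℝ) < 2 ^ (D - e) := Real.one_lt_rpow (by norm_num) hb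
      obtain ⟨k, hk⟩ := pow_unbounded_of_one_lt (1 / c) h1
      refine ⟨k, ?_⟩
      have h2 : ((1 / 2 : ℝ) ^ k) ^ (-(D - e)) = (2 ^ (D - e)) ^ k := by
        rw [one_div, inv_pow, Real.inv_rpow (by positivity), Real.rpow_neg (by positivity), inv_inv,
          ← Real.rpow_natCast, ← Real.rpow_natCast, ← Real.rpow_mul (by norm_num), ← Real.rpow_mul (by norm_num), mul_comm]
      rw [h2]
      rw [div_lt_iff₀ hc] at hk
      linarith
    have h3 := hlow 0 1 le_rfl zero_le_one le_rfl ((1 / 2) ^ k) (by positivity) (pow_le_one₀ (by norm_num) (by norm_num))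
      {f 0} (by
        rintro _ ⟨x, hx, rfl⟩
        refine mem_iUnion₂.2 ⟨f 0, Finset.mem_singleton_self _, ?_⟩
        rw [mem_closedBall, dist_comm]
        have := h x hx.1 hx.2
        have h4 : (0 : ℝ) < (1 / 2) ^ k := by positivity
        linarith)
    rw [Finset.card_singleton] at h3
    push_cast at h3
    linarith
  obtain ⟨v0, hv0, hv1, hdist⟩ := hroot
  -- the smallness of the first scale
  obtain ⟨δ, hδ⟩ : ∃ δ, δ = η * w / 2 := ⟨_, rfl⟩
  have hδ0 : 0 < δ := by rw [hδ]; positivity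
  obtain ⟨ρ, hρ0, hρ1, hρd, hρη, hρc⟩ : ∃ ρ : ℝ, 0 < ρ ∧ ρ ≤ 1 / 4 ∧ ρ ≤ dist (f 0) (f v0) ∧ ρ ^ η ≤ 1 / 2 ∧ 1 ≤ c2 * ρ ^ (-δ) := by
    have t1 : ∀ᶠ x : ℝ in nhdsWithin 0 (Ioi 0), x ^ η < 1 / 2 := by
      have h1 : Filter.Tendsto (fun x : ℝ => x ^ η) (nhdsWithin 0 (Ioi 0)) (nhds 0) := by
        have := (Real.continuousAt_rpow_const 0 η (Or.inr hη0.le)).tendsto
        rw [Real.zero_rpow hη0.ne'] at this
        exact this.mono_left nhdsWithin_le_nhds
      exact (tendsto_order.1 h1).2 _ (by norm_num)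
    have t2 : ∀ᶠ x : ℝ in nhdsWithin 0 (Ioi 0), x ^ δ < c2 := by
      have h1 : Filter.Tendsto (fun x : ℝ => x ^ δ) (nhdsWithin 0 (Ioi 0)) (nhds 0) := by
        have := (Real.continuousAt_rpow_const 0 δ (Or.inr hδ0.le)).tendsto
        rw [Real.zero_rpow hδ0.ne'] at this
        exact this.mono_left nhdsWithin_le_nhds
      exact (tendsto_order.1 h1).2 _ hc20
    have t3 : ∀ᶠ x : ℝ in nhdsWithin 0 (Ioi 0), x < min (1 / 4) (dist (f 0) (f v0)) := by
      have h1 : Filter.Tendsto (fun x : ℝ => x) (nhdsWithin 0 (Ioi 0)) (nhds 0) := Filter.tendsto_id.mono_left nhdsWithin_le_nhds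
      exact (tendsto_order.1 h1).2 _ (lt_min (by norm_num) hdist)
    have t4 : ∀ᶠ x : ℝ in nhdsWithin 0 (Ioi 0), 0 < x := self_mem_nhdsWithin
    obtain ⟨ρ, h1, h2, h3, h4⟩ := (t1.and (t2.and (t3.and t4))).exists
    refine ⟨ρ, h4, h3.le.trans (min_le_left _ _), h3.le.trans (min_le_right _ _), h1.le, ?_⟩
    rw [Real.rpow_neg h4.le]
    have : 0 < ρ ^ δ := by positivity
    rw [← div_eq_mul_inv, one_le_div this]
    exact h2.le
  -- the scales
  obtain ⟨r, hr⟩ : ∃ r : ℕ → ℝ, r = fun i => ρ ^ ((1 + η) ^ i) := ⟨_, rfl⟩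
  have hr0 : r 0 = ρ := by rw [hr]; simp
  have hrp : ∀ i, 0 < r i := fun i => by rw [hr]; positivity
  have hrs : ∀ i, r (i + 1) = r i ^ (1 + η) := by
    intro i
    rw [hr]
    show ρ ^ ((1 + η) ^ (i + 1)) = (ρ ^ ((1 + η) ^ i)) ^ (1 + η)
    rw [← Real.rpow_mul hρ0.le, pow_succ]
  have hrρ : ∀ i, r i ≤ ρ := by
    intro i
    rw [hr]
    show ρ ^ ((1 + η) ^ i) ≤ ρ
    calc ρ ^ ((1 + η) ^ i) ≤ ρ ^ (1 : ℝ) :=
          Real.rpow_le_rpow_of_exponent_ge hρ0 (by linarith) (one_le_pow₀ (by linarith))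
      _ = ρ := Real.rpow_one ρ
  have hr1 : ∀ i, r (i + 1) = r i * r i ^ η := by
    intro i
    rw [hrs, Real.rpow_add (hrp i), Real.rpow_one]
  have hrη : ∀ i, r i ^ η ≤ 1 / 2 := fun i => (Real.rpow_le_rpow (hrp i).le (hrρ i) hη0.le).trans hρη
  have hr2 : ∀ i, 2 * r (i + 1) ≤ r i := by
    intro i
    rw [hr1]
    have := hrη i
    have := hrp i
    nlinarith
  -- the numbers of children
  obtain ⟨N, hN⟩ : ∃ N : ℕ → ℕ, N = fun i => ⌈r i ^ (-(η * (1 + η) * s))⌉₊ := ⟨_, rfl⟩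
  have hN0 : ∀ i, r i ^ (-(η * (1 + η) * s)) ≤ N i := by
    intro i
    rw [hN]
    exact Nat.le_ceil _
  have hN1 : ∀ i, 1 ≤ N i := by
    intro i
    rw [hN]
    refine Nat.one_le_ceil_iff.2 ?_
    have := hrp i
    positivity
  have hcov : ∀ i, Cov f (r i) (4 * r (i + 1)) (N i) := by
    intro i u v h0 huv hv hR F hF
    have h1 := hlow u v h0 huv hv (4 * r (i + 1)) (by have := hrp (i + 1); positivity)
      (by have := hrρ (i + 1); linarith) F hF
    have h2 := htime u v (r i) h0 huv hv (hrp i) hR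
    have h3 : c * (r i / M) ^ (D + e) * (4 * r (i + 1)) ^ (-(D - e)) = c2 * (r i ^ (D + e) * r (i + 1) ^ (-(D - e))) := by
      rw [hc2, Real.mul_rpow (by norm_num) (hrp (i + 1)).le, div_eq_mul_one_div (r i) M,
        Real.mul_rpow (hrp i).le (by positivity)]
      ring
    have h4 : r i ^ (D + e) * r (i + 1) ^ (-(D - e)) = r i ^ (D + e - (1 + η) * (D - e)) := by
      rw [hrs, ← Real.rpow_mul (hrp i).le, ← Real.rpow_add (hrp i)]
      congr 1
      ring
    have h5 : D + e - (1 + η) * (D - e) ≤ -(η * (1 + η) * s) - δ := by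
      rw [hδ]
      have e1 : D + e - (1 + η) * (D - e) = e * (2 + η) - η * D := by ring
      have e2 : -(η * (1 + η) * (s : ℝ)) = η * w - η * D := by rw [hw]; ring
      rw [e1, e2]
      linarith
    have hri1 : r i ≤ 1 := by have := hrρ i; linarith
    have h6 : r i ^ (-(η * (1 + η) * s) - δ) ≤ r i ^ (D + e - (1 + η) * (D - e)) :=
      Real.rpow_le_rpow_of_exponent_ge (hrp i) hri1 h5
    have h7 : r i ^ (-(η * (1 + η) * s) - δ) = r i ^ (-(η * (1 + η) * s)) * r i ^ (-δ) := by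
      rw [← Real.rpow_add (hrp i)]
      congr 1
    have h8 : ρ ^ (-δ) ≤ r i ^ (-δ) := by
      rw [Real.rpow_neg hρ0.le, Real.rpow_neg (hrp i).le]
      exact inv_anti₀ (by have := hrp i; positivity) (Real.rpow_le_rpow (hrp i).le (hrρ i) hδ0.le)
    have h9 : r i ^ (-(η * (1 + η) * s)) ≤ F.card := by
      have g0 : 0 ≤ r i ^ (-(η * (1 + η) * s)) := by have := hrp i; positivity
      calc r i ^ (-(η * (1 + η) * s)) = r i ^ (-(η * (1 + η) * s)) * 1 := by ring
        _ ≤ r i ^ (-(η * (1 + η) * s)) * (c2 * r i ^ (-δ)) := by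
          refine mul_le_mul_of_nonneg_left ?_ g0
          calc 1 ≤ c2 * ρ ^ (-δ) := hρc
            _ ≤ c2 * r i ^ (-δ) := mul_le_mul_of_nonneg_left h8 hc20.le
        _ = c2 * r i ^ (-(η * (1 + η) * s) - δ) := by rw [h7]; ring
        _ ≤ c2 * r i ^ (D + e - (1 + η) * (D - e)) := mul_le_mul_of_nonneg_left h6 hc20.le
        _ = c * (r i / M) ^ (D + e) * (4 * r (i + 1)) ^ (-(D - e)) := by rw [h3, h4]
        _ ≤ c * (v - u) * (4 * r (i + 1)) ^ (-(D - e)) := by
          have := hrp (i + 1)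
          gcongr
        _ ≤ F.card := h1
    rw [hN]
    exact Nat.ceil_le.2 h9
  -- the products
  have hP : ∀ i, r i ^ (-((1 + η) * s)) ≤ ρ ^ (-((1 + η) * s)) * PP N i := by
    intro i
    induction i with
    | zero =>
      rw [hr0]
      unfold PP
      simp
    | succ i ih =>
      rw [PP_succ, hrs, ← Real.rpow_mul (hrp i).le]
      have e1 : r i ^ ((1 + η) * -((1 + η) * s)) = r i ^ (-((1 + η) * s)) * r i ^ (-(η * (1 + η) * s)) := by
        rw [← Real.rpow_add (hrp i)]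
        congr 1
        ring
      rw [e1]
      push_cast
      rw [← mul_assoc]
      have := hrp i
      exact mul_le_mul ih (hN0 i) (by positivity) (by positivity)
  refine dim_curve hf hrp hr2 hN1 hcov ⟨0, v0, le_rfl, hv0, hv1, by rw [hr0]; exact hρd⟩
    (C := ρ ^ (-((1 + η) * s))) (by positivity) fun i => ?_
  have h1 : r i ^ ((1 + η) * s) ≤ (2 * r (i + 1)) ^ (s : ℝ) := by
    rw [Real.rpow_mul (hrp i).le, ← hrs]
    exact Real.rpow_le_rpow (hrp _).le (by have := hrp (i + 1); linarith) hs0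
  have h2 : r i ^ (-((1 + η) * s)) * r i ^ ((1 + η) * s) = 1 := by
    rw [← Real.rpow_add (hrp i), neg_add_cancel, Real.rpow_zero]
  calc (1 : ℝ) = r i ^ (-((1 + η) * s)) * r i ^ ((1 + η) * s) := h2.symm
    _ ≤ ρ ^ (-((1 + η) * s)) * PP N i * (2 * r (i + 1)) ^ (s : ℝ) := by
      have := hrp i
      exact mul_le_mul (hP i) h1 (by positivity) (by positivity)

end DIM

end HexObs
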