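import Pool.Agent.DIM.Glue

/-!
DIM: under the natural content inequality the curve is at no time Hoelder continuous with an exponent > 1 / D.
-/

set_option autoImplicit false

namespace HexObs

namespace DIM

open MeasureTheory Set Metric Filter Topology

open scoped ENNReal NNReal

/-- the function M h ^ b is small, c h (M h ^ b) ^ (-a) is large -/
lemma small_h {a b c M δ : ℝ} (ha : 0 < a) (hb : 0 < b) (hab : 1 < b * a) (hc : 0 < c) (hM : 0 < M) (hδ : 0 < δ) :
    ∃ h : ℝ, 0 < h ∧ h < δ ∧ h ≤ 1 / 2 ∧ M * h ^ b ≤ 1 ∧ 1 < c * h * (M * h ^ b) ^ (-a) := by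
  have t1 : ∀ᶠ x : ℝ in nhdsWithin 0 (Ioi 0), M * x ^ b < 1 := by
    have h1 : Tendsto (fun x : ℝ => M * x ^ b) (nhdsWithin 0 (Ioi 0)) (nhds 0) := by
      have h2 := ((Real.continuousAt_rpow_const 0 b (Or.inr hb.le)).tendsto).const_mul M
      rw [Real.zero_rpow hb.ne', mul_zero] at h2
      exact h2.mono_left nhdsWithin_le_nhds
    exact (tendsto_order.1 h1).2 _ one_pos
  have t2 : ∀ᶠ x : ℝ in nhdsWithin 0 (Ioi 0), x ^ (b * a - 1) < c * M ^ (-a) := by
    have hp : 0 < b * a - 1 := by linarith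
    have h1 : Tendsto (fun x : ℝ => x ^ (b * a - 1)) (nhdsWithin 0 (Ioi 0)) (nhds 0) := by
      have h2 := (Real.continuousAt_rpow_const 0 (b * a - 1) (Or.inr hp.le)).tendsto
      rw [Real.zero_rpow hp.ne'] at h2
      exact h2.mono_left nhdsWithin_le_nhds
    exact (tendsto_order.1 h1).2 _ (by positivity)
  have t3 : ∀ᶠ x : ℝ in nhdsWithin 0 (Ioi 0), x < min δ (1 / 2) := by
    have h1 : Tendsto (fun x : ℝ => x) (nhdsWithin 0 (Ioi 0)) (nhds 0) := tendsto_id.mono_left nhdsWithin_le_nhds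
    exact (tendsto_order.1 h1).2 _ (lt_min hδ (by norm_num))
  have t4 : ∀ᶠ x : ℝ in nhdsWithin 0 (Ioi 0), 0 < x := self_mem_nhdsWithin
  obtain ⟨h, h1, h2, h3, h4⟩ := (t1.and (t2.and (t3.and t4))).exists
  refine ⟨h, h4, h3.trans_le (min_le_left _ _), (h3.trans_le (min_le_right _ _)).le, h1.le, ?_⟩
  have e1 : c * h * (M * h ^ b) ^ (-a) = c * M ^ (-a) * (h ^ (b * a - 1))⁻¹ := by
    rw [Real.mul_rpow hM.le (by positivity), ← Real.rpow_mul h4.le, ← Real.rpow_neg h4.le]
    have e2 : h ^ (-(b * a - 1)) = h * h ^ (b * -a) := by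
      conv_rhs => rw [← Real.rpow_one h, ← Real.rpow_mul h4.le, ← Real.rpow_add h4]
      congr 1
      ring
    rw [e2]
    ring
  rw [e1, ← div_eq_mul_inv, one_lt_div (by positivity)]
  exact h2

/-- **nowhere Hoelder continuous with an exponent > 1 / D** -/
theorem nowhere_holder {E : Type*} [MetricSpace E] {f : ℝ → E} {D : ℝ} (hD : 0 < D) (hf : NatC f D) {b : ℝ}
    (hb : 1 / D < b) {t M δ : ℝ} (h0 : 0 ≤ t) (h1 : t ≤ 1) (hδ : 0 < δ) :
    ∃ s : ℝ, 0 ≤ s ∧ s ≤ 1 ∧ |s - t| < δ ∧ M * |s - t| ^ b < dist (f s) (f t) := by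
  by_contra hcon
  push Not at hcon
  have hb0 : 0 < b := lt_trans (by positivity) hb
  obtain ⟨e, he0, he1⟩ : ∃ e : ℝ, 0 < e ∧ 1 < b * (D - e) := by
    have h2 : 1 < b * D := by rwa [div_lt_iff₀ hD] at hb
    refine ⟨(b * D - 1) / (2 * b), div_pos (by linarith) (by positivity), ?_⟩
    have : b * (D - (b * D - 1) / (2 * b)) = (b * D + 1) / 2 := by
      field_simp
      ring
    rw [this]
    linarith
  have hDe : 0 < D - e := by
    by_contra hle
    push Not at hle
    have := mul_nonpos_of_nonneg_of_nonpos hb0.le hle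
    linarith
  obtain ⟨c, hc, hL, -⟩ := hf e he0
  obtain ⟨h, k0, k1, k2, k3, k4⟩ := small_h hDe hb0 he1 hc (show 0 < |M| + 1 by positivity) hδ
  -- a piece of length h at t
  obtain ⟨u, hu0, hu1, hut⟩ : ∃ u : ℝ, 0 ≤ u ∧ u + h ≤ 1 ∧ ∀ s ∈ Icc u (u + h), |s - t| ≤ h := by
    rcases le_or_gt t (1 / 2) with h2 | h2
    · exact ⟨t, h0, by linarith, fun s hs => by rw [abs_of_nonneg (by linarith [hs.1])]; linarith [hs.2]⟩
    · exact ⟨t - h, by linarith, by linarith, fun s hs => by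
        rw [abs_of_nonpos (by linarith [hs.2])]
        linarith [hs.1]⟩
  have hr0 : 0 < (|M| + 1) * h ^ b := by positivity
  have h5 := hL u (u + h) hu0 (by linarith) hu1 ((|M| + 1) * h ^ b) hr0 k3 {f t} (by
    rintro _ ⟨s, hs, rfl⟩
    refine mem_iUnion₂.2 ⟨f t, Finset.mem_singleton_self _, ?_⟩
    rw [mem_closedBall]
    have h6 := hut s hs
    refine (hcon s (by linarith [hs.1]) (by linarith [hs.2]) (h6.trans_lt k1)).trans ?_
    have h7 : |s - t| ^ b ≤ h ^ b := Real.rpow_le_rpow (abs_nonneg _) h6 hb0.le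
    have h8 : 0 ≤ |s - t| ^ b := by positivity
    have h9 := le_abs_self M
    nlinarith [abs_nonneg M])
  rw [Finset.card_singleton, show u + h - u = h by ring] at h5
  push_cast at h5
  linarith

end DIM

end HexObs
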