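import Pool.Agent.NTW.CrdB
import Pool.Agent.NTA.StepA

/-!
DIM (dimension of the limit curves): the class of the long crowded runs with few doublings.
-/

set_option autoImplicit false

namespace HexObs

namespace DIM

open Finset TS SDN NTW NTA

/-- the runs of at least Y leaves with at most Lam doublings per leaf and few block pairs of caps -/
def RYs (kc N w0 Q Lam Y : ℕ) : Set (List (List Bool)) :=
  {gs | Y ≤ gs.length ∧ dbl (2 ^ (kc + 4)) gs ≤ Lam * gs.length ∧
    ∃ n, 2 * Q * (n + 1) ≤ gs.length ∧ gs ∈ CS (2 ^ (kc + 4)) N (kc + 2) (2 ^ (kc - w0)) n gs.length}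

end DIM

end HexObs
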