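import Mathlib.Topology.MetricSpace.HausdorffDimension
import Mathlib.MeasureTheory.Measure.Hausdorff
import Mathlib.Analysis.SpecialFunctions.Pow.NNReal

/-!
DIM: a tree of well separated sets gives a lower bound of the Hausdorff measure.
-/

set_option autoImplicit false

namespace HexObs

namespace DIM

open MeasureTheory Set Metric

open scoped ENNReal NNReal

variable {E : Type*}

section count

variable [PseudoMetricSpace E]

/-- every node of the level i has N i children, two of them are at distance > 2 r (i + 1) -/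
def Split (Nd : ℕ → Set (Set E)) (r : ℕ → ℝ) (N : ℕ → ℕ) : Prop :=
  ∀ i, ∀ A ∈ Nd i, ∃ B : ℕ → Set E, (∀ j < N i, B j ∈ Nd (i + 1) ∧ B j ⊆ A) ∧
    ∀ j < N i, ∀ l < N i, j ≠ l → ∀ x ∈ B j, ∀ y ∈ B l, 2 * r (i + 1) < dist x y

/-- the number of descendants -/
def PP (N : ℕ → ℕ) (i : ℕ) : ℕ := ∏ l ∈ Finset.range i, N l

lemma PP_succ (N : ℕ → ℕ) (i : ℕ) : PP N (i + 1) = PP N i * N i := Finset.prod_range_succ _ _

lemma PP_pos {N : ℕ → ℕ} (hN : ∀ i, 1 ≤ N i) (i : ℕ) : 0 < PP N i :=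
  Finset.prod_pos fun l _ => hN l

lemma PP_mono {N : ℕ → ℕ} (hN : ∀ i, 1 ≤ N i) {i j : ℕ} (h : i ≤ j) : PP N i ≤ PP N j := by
  induction j, h using Nat.le_induction with
  | base => exact le_rfl
  | succ j _ ih =>
    rw [PP_succ]
    exact ih.trans (Nat.le_mul_of_pos_right _ (hN j))

/-- **finite covers of a node** -/
theorem cover_count {Nd : ℕ → Set (Set E)} {r : ℕ → ℝ} {N : ℕ → ℕ} (hS : Split Nd r N) (hN : ∀ i, 1 ≤ N i)
    (hne : ∀ i, ∀ A ∈ Nd i, A.Nonempty) {ι : Type*} (U : ι → Set E) (lv : ι → ℕ)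
    (hU : ∀ k, ∀ i < lv k, ∀ x ∈ U k, ∀ y ∈ U k, dist x y ≤ 2 * r (i + 1)) (n : ℕ) :
    ∀ (i : ℕ) (S : Finset ι), (∀ k ∈ S, lv k ≤ i + n) → ∀ A ∈ Nd i, A ⊆ ⋃ k ∈ S, U k →
      1 / (PP N i : ℝ) ≤ ∑ k ∈ S, 1 / (PP N (lv k) : ℝ) := by
  classical
  have hPr : ∀ i, (0 : ℝ) < PP N i := fun i => by exact_mod_cast PP_pos hN i
  -- if one of the sets is of a level at most i
  have hone : ∀ (i : ℕ) (S : Finset ι), (∃ k ∈ S, lv k ≤ i) → 1 / (PP N i : ℝ) ≤ ∑ k ∈ S, 1 / (PP N (lv k) : ℝ) := by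
    rintro i S ⟨k, hk, hki⟩
    have h1 : 1 / (PP N i : ℝ) ≤ 1 / (PP N (lv k) : ℝ) :=
      one_div_le_one_div_of_le (hPr _) (by exact_mod_cast PP_mono hN hki)
    exact h1.trans (Finset.single_le_sum (f := fun k => 1 / (PP N (lv k) : ℝ)) (fun k _ => by
      have := hPr (lv k)
      positivity) hk)
  induction n with
  | zero =>
    intro i S hS0 A hA hcov
    apply hone
    obtain ⟨x, hx⟩ := hne i A hA
    have h1 := hcov hx
    rw [mem_iUnion₂] at h1
    obtain ⟨k, hk, -⟩ := h1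
    exact ⟨k, hk, by simpa using hS0 k hk⟩
  | succ n ih =>
    intro i S hS0 A hA hcov
    by_cases h0 : ∃ k ∈ S, lv k ≤ i
    · exact hone i S h0
    push Not at h0
    obtain ⟨B, hB, hsep⟩ := hS i A hA
    obtain ⟨T, hT⟩ : ∃ T : ℕ → Finset ι, T = fun j => S.filter fun k => (U k ∩ B j).Nonempty := ⟨_, rfl⟩
    have hT1 : ∀ j, ∀ k ∈ T j, k ∈ S ∧ (U k ∩ B j).Nonempty := by
      intro j k hk
      rw [hT] at hk
      exact Finset.mem_filter.1 hk
    have hdisj : ∀ j ∈ Finset.range (N i), ∀ l ∈ Finset.range (N i), j ≠ l → Disjoint (T j) (T l) := by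
      intro j hj l hl hjl
      rw [Finset.mem_range] at hj hl
      rw [Finset.disjoint_left]
      intro k hk hk'
      obtain ⟨hkS, x, hx1, hx2⟩ := hT1 j k hk
      obtain ⟨-, y, hy1, hy2⟩ := hT1 l k hk'
      have h1 := hsep j hj l hl hjl x hx2 y hy2
      have h2 := hU k i (h0 k hkS) x hx1 y hy1
      linarith
    have hchild : ∀ j ∈ Finset.range (N i), 1 / (PP N (i + 1) : ℝ) ≤ ∑ k ∈ T j, 1 / (PP N (lv k) : ℝ) := by
      intro j hj
      rw [Finset.mem_range] at hj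
      refine ih (i + 1) (T j) (fun k hk => ?_) (B j) (hB j hj).1 ?_
      · have := hS0 k (hT1 j k hk).1
        omega
      · intro x hx
        have h1 := hcov ((hB j hj).2 hx)
        rw [mem_iUnion₂] at h1 ⊢
        obtain ⟨k, hk, hxk⟩ := h1
        refine ⟨k, ?_, hxk⟩
        rw [hT]
        exact Finset.mem_filter.2 ⟨hk, x, hxk, hx⟩
    have hsum : ∑ k ∈ (Finset.range (N i)).biUnion T, 1 / (PP N (lv k) : ℝ) =
        ∑ j ∈ Finset.range (N i), ∑ k ∈ T j, 1 / (PP N (lv k) : ℝ) :=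
      Finset.sum_biUnion fun j hj l hl hjl => hdisj j hj l hl hjl
    have hsub : (Finset.range (N i)).biUnion T ⊆ S := by
      intro k hk
      rw [Finset.mem_biUnion] at hk
      obtain ⟨j, -, hk⟩ := hk
      exact (hT1 j k hk).1
    have h2 := Finset.sum_le_sum_of_subset_of_nonneg (f := fun k => 1 / (PP N (lv k) : ℝ)) hsub (fun k _ _ => by
      have := hPr (lv k)
      positivity)
    have h3 : ∑ _j ∈ Finset.range (N i), 1 / (PP N (i + 1) : ℝ) = 1 / (PP N i : ℝ) := by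
      rw [Finset.sum_const, Finset.card_range, nsmul_eq_mul, PP_succ]
      have a1 := hPr i
      have a2 : (0 : ℝ) < N i := by exact_mod_cast hN i
      push_cast
      field_simp
    rw [← h3]
    refine (Finset.sum_le_sum hchild).trans ?_
    rw [← hsum]
    exact h2

end count

section haus

variable [MetricSpace E] [MeasurableSpace E] [BorelSpace E]

/-- the level of a diameter -/
lemma level_exists {r : ℕ → ℝ} (hr0 : Filter.Tendsto r Filter.atTop (nhds 0)) {d : ℝ} (hd : 0 < d) :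
    ∃ l : ℕ, (∀ i < l, d ≤ 2 * r (i + 1)) ∧ 2 * r (l + 1) < d := by
  have h1 : ∃ l : ℕ, 2 * r (l + 1) < d := by
    have h2 : ∀ᶠ i in Filter.atTop, r i < d / 2 := (tendsto_order.1 hr0).2 _ (by positivity)
    obtain ⟨a, ha⟩ := h2.exists_forall_of_atTop
    exact ⟨a, by have := ha (a + 1) (by omega); linarith⟩
  classical
  refine ⟨Nat.find h1, fun i hi => ?_, Nat.find_spec h1⟩
  have := Nat.find_min h1 hi
  linarith

/-- **the mass of the tree** -/
theorem haus_pos {Nd : ℕ → Set (Set E)} {r : ℕ → ℝ} {N : ℕ → ℕ} (hS : Split Nd r N) (hN : ∀ i, 1 ≤ N i)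
    (hne : ∀ i, ∀ A ∈ Nd i, A.Nonempty) (hr0 : Filter.Tendsto r Filter.atTop (nhds 0))
    (hrp : ∀ i, 0 < r i) {s C : ℝ} (hs : 0 ≤ s) (hC : 0 < C) (hP : ∀ i, 1 ≤ C * PP N i * (2 * r (i + 1)) ^ s)
    {A : Set E} (hA : A ∈ Nd 0) (hAc : IsCompact A) : ENNReal.ofReal (1 / C) ≤ μH[s] A := by
  classical
  rw [Measure.hausdorffMeasure_apply]
  refine le_iSup₂_of_le 1 one_pos (le_iInf fun t => le_iInf fun hcov => le_iInf fun hdiam => ?_)
  -- a little room
  refine ENNReal.le_of_forall_pos_le_add fun ε hε hfin => ?_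
  obtain ⟨δ, hδ, hδs⟩ := ENNReal.exists_pos_sum_of_countable (ι := ℕ) (ε := (ε : ℝ≥0∞)) (by
    exact_mod_cast hε.ne') 
  -- the diameters
  have hfin1 : ∀ n, ediam (t n) ≠ ⊤ := fun n => ne_top_of_le_ne_top ENNReal.one_ne_top (hdiam n)
  have hdn : ∀ n, ∃ d : ℝ, 0 < d ∧ (ediam (t n)).toReal < d ∧
      ENNReal.ofReal (d ^ s) ≤ ediam (t n) ^ s + δ n := by
    intro n
    obtain ⟨a, ha⟩ : ∃ a, a = (ediam (t n)).toReal := ⟨_, rfl⟩
    have ha0 : 0 ≤ a := by rw [ha]; exact ENNReal.toReal_nonneg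
    have hcont : ContinuousAt (fun x : ℝ => x ^ s) a := Real.continuousAt_rpow_const a s (Or.inr hs)
    have hev : ∀ᶠ x in nhds a, x ^ s < a ^ s + δ n :=
      (tendsto_order.1 hcont.tendsto).2 _ (by have := hδ n; have h2 : (0 : ℝ) < δ n := by exact_mod_cast this
                                              linarith)
    obtain ⟨η, hη, hball⟩ := Metric.eventually_nhds_iff.1 hev
    refine ⟨a + η / 2, by positivity, by rw [← ha]; linarith, ?_⟩
    have h3 := hball (y := a + η / 2) (by rw [Real.dist_eq]; rw [show a + η / 2 - a = η / 2 by ring, abs_of_pos (by positivity)]; linarith)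
    have h4 : ediam (t n) ^ s = ENNReal.ofReal (a ^ s) := by
      rw [← ENNReal.ofReal_rpow_of_nonneg ha0 hs, ha, ENNReal.ofReal_toReal (hfin1 n)]
    rw [h4, ← ENNReal.ofReal_coe_nnreal, ← ENNReal.ofReal_add (by positivity) (by positivity)]
    exact ENNReal.ofReal_le_ofReal h3.le
  choose d hd0 hd1 hd2 using hdn
  -- the open sets
  obtain ⟨V, hV⟩ : ∃ V : ℕ → Set E, V = fun n => thickening ((d n - (ediam (t n)).toReal) / 2) (t n) := ⟨_, rfl⟩
  have hVo : ∀ n, IsOpen (V n) := fun n => by rw [hV]; exact isOpen_thickening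
  have hVt : ∀ n, t n ⊆ V n := fun n => by
    rw [hV]
    exact self_subset_thickening (by have := hd1 n; linarith) _
  have hVd : ∀ n, ∀ x ∈ V n, ∀ y ∈ V n, dist x y ≤ d n := by
    intro n x hx y hy
    rw [hV] at hx hy
    obtain ⟨x', hx', hxx⟩ := mem_thickening_iff.1 hx
    obtain ⟨y', hy', hyy⟩ := mem_thickening_iff.1 hy
    have h1 : dist x' y' ≤ (ediam (t n)).toReal := by
      rw [← ENNReal.toReal_ofReal dist_nonneg, ← edist_dist]
      exact ENNReal.toReal_mono (hfin1 n) (edist_le_ediam_of_mem hx' hy')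
    have h2 := dist_triangle4 x x' y' y
    rw [dist_comm y y'] at hyy
    linarith
  obtain ⟨F, hF⟩ := hAc.elim_finite_subcover V hVo (fun x hx => by
    obtain ⟨n, hn⟩ := mem_iUnion.1 (hcov hx)
    exact mem_iUnion.2 ⟨n, hVt n hn⟩)
  -- only the nonempty ones
  obtain ⟨G, hG⟩ : ∃ G, G = F.filter fun n => (t n).Nonempty := ⟨_, rfl⟩
  have hGcov : A ⊆ ⋃ n ∈ G, V n := by
    intro x hx
    obtain ⟨n, hn, hxn⟩ := mem_iUnion₂.1 (hF hx)
    refine mem_iUnion₂.2 ⟨n, ?_, hxn⟩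
    rw [hG, Finset.mem_filter]
    refine ⟨hn, ?_⟩
    rw [hV] at hxn
    obtain ⟨x', hx', -⟩ := mem_thickening_iff.1 hxn
    exact ⟨x', hx'⟩
  choose lv hlv1 hlv2 using fun n => level_exists hr0 (hd0 n)
  have hcount := cover_count hS hN hne V lv (fun k i hi x hx y hy => (hVd k x hx y hy).trans (hlv1 k i hi))
    (G.sup lv) 0 G (fun k hk => by rw [zero_add]; exact Finset.le_sup hk) A hA hGcov
  have hP0 : PP N 0 = 1 := Finset.prod_range_zero _
  rw [hP0, Nat.cast_one, div_one] at hcount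
  have hPr : ∀ i, (0 : ℝ) < PP N i := fun i => by exact_mod_cast PP_pos hN i
  have hterm : ∀ n ∈ G, 1 / (PP N (lv n) : ℝ) ≤ C * d n ^ s := by
    intro n _
    have h1 := hP (lv n)
    have h2 : (2 * r (lv n + 1)) ^ s ≤ d n ^ s :=
      Real.rpow_le_rpow (by have := hrp (lv n + 1); positivity) (hlv2 n).le hs
    rw [div_le_iff₀ (hPr _)]
    have h3 : C * PP N (lv n) * (2 * r (lv n + 1)) ^ s ≤ C * PP N (lv n) * d n ^ s :=
      mul_le_mul_of_nonneg_left h2 (by have := hPr (lv n); positivity)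
    nlinarith
  have h5 : (1 : ℝ) / C ≤ ∑ n ∈ G, d n ^ s := by
    rw [div_le_iff₀ hC, Finset.sum_mul]
    refine hcount.trans ((Finset.sum_le_sum hterm).trans (le_of_eq ?_))
    exact Finset.sum_congr rfl fun n _ => mul_comm _ _
  calc ENNReal.ofReal (1 / C) ≤ ENNReal.ofReal (∑ n ∈ G, d n ^ s) := ENNReal.ofReal_le_ofReal h5
    _ = ∑ n ∈ G, ENNReal.ofReal (d n ^ s) := ENNReal.ofReal_sum_of_nonneg fun n _ => by
        have := hd0 n
        positivity
    _ ≤ ∑ n ∈ G, ((⨆ _ : (t n).Nonempty, ediam (t n) ^ s) + δ n) := by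
        refine Finset.sum_le_sum fun n hn => ?_
        rw [hG, Finset.mem_filter] at hn
        refine (hd2 n).trans (add_le_add_left ?_ _)
        exact le_iSup (fun _ : (t n).Nonempty => ediam (t n) ^ s) hn.2
    _ ≤ ∑' n, ((⨆ _ : (t n).Nonempty, ediam (t n) ^ s) + δ n) := ENNReal.sum_le_tsum _
    _ = ∑' n, (⨆ _ : (t n).Nonempty, ediam (t n) ^ s) + ∑' n, (δ n : ℝ≥0∞) := ENNReal.tsum_add
    _ ≤ _ := add_le_add_right hδs.le _

end haus

end DIM

end HexObs
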